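import Pool.Agent.K1H32.WU.Sum

/-! The abstract criterion: an element of the closure of the ultrapower operators that is in no
bounded closure. -/

set_option autoImplicit false

open Filter Topology ContinuousLinearMap

namespace Pool.Agent.K1H32.WU

variable {𝕜 : Type*} [RCLike 𝕜] {E : Type*} [NormedAddCommGroup E] [NormedSpace 𝕜 E]

lemma exists_signs (F : Finset ℕ) (b : ℕ → ℕ → ℝ) : ∃ σ : ℕ → ℝ, (∀ i, σ i = 1 ∨ σ i = -1) ∧
    ∑ i ∈ F, b i i ≤ ∑ i ∈ F, ∑ j ∈ F, σ i * σ j * b i j := by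
  classical
  induction F using Finset.induction_on with
  | empty => exact ⟨fun _ => 1, fun _ => Or.inl rfl, by simp⟩
  | insert a F ha ih =>
    obtain ⟨σ, hσ, h⟩ := ih
    set X : ℝ := ∑ j ∈ F, σ j * (b a j + b j a) with hX
    obtain ⟨τ, hτ, hτX⟩ : ∃ τ : ℝ, (τ = 1 ∨ τ = -1) ∧ 0 ≤ τ * X := by
      rcases le_total 0 X with h1 | h1
      · exact ⟨1, Or.inl rfl, by linarith⟩
      · exact ⟨-1, Or.inr rfl, by linarith⟩
    refine ⟨Function.update σ a τ, ?_, ?_⟩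
    · intro i
      by_cases hi : i = a
      · subst hi; rw [Function.update_self]; exact hτ
      · rw [Function.update_of_ne hi]; exact hσ i
    · have h1 : ∀ i ∈ F, Function.update σ a τ i = σ i := fun i hi =>
        Function.update_of_ne (by rintro rfl; exact ha hi) _ _
      rw [Finset.sum_insert ha, Finset.sum_insert ha, Finset.sum_insert ha, Function.update_self]
      have h2 : ∑ j ∈ F, τ * Function.update σ a τ j * b a j = τ * ∑ j ∈ F, σ j * b a j := by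
        rw [Finset.mul_sum]
        exact Finset.sum_congr rfl fun j hj => by rw [h1 j hj, mul_assoc]
      have h3 : ∑ i ∈ F, ∑ j ∈ insert a F, Function.update σ a τ i * Function.update σ a τ j *
          b i j = τ * ∑ j ∈ F, σ j * b j a + ∑ i ∈ F, ∑ j ∈ F, σ i * σ j * b i j := by
        rw [Finset.mul_sum, ← Finset.sum_add_distrib]
        refine Finset.sum_congr rfl fun i hi => ?_
        rw [Finset.sum_insert ha, Function.update_self, h1 i hi]
        congr 1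
        · ring
        · exact Finset.sum_congr rfl fun j hj => by rw [h1 j hj]
      rw [h2, h3]
      have h4 : τ * X = τ * ∑ j ∈ F, σ j * b a j + τ * ∑ j ∈ F, σ j * b j a := by
        rw [hX, ← mul_add, ← Finset.sum_add_distrib]
        congr 1
        exact Finset.sum_congr rfl fun j _ => by ring
      have h5 : τ * τ = 1 := by rcases hτ with h | h <;> rw [h] <;> norm_num
      rw [h5, one_mul]
      linarith

lemma avg_bound (T : E →L[𝕜] E) (z : ℕ → E) (ρ : ℕ → StrongDual 𝕜 E) (F : Finset ℕ) (M : ℝ)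
    (hM : ∀ σ : ℕ → ℝ, (∀ i, σ i = 1 ∨ σ i = -1) →
      ‖∑ i ∈ F, ((σ i : ℝ) : 𝕜) • z i‖ * ‖∑ i ∈ F, ((σ i : ℝ) : 𝕜) • ρ i‖ ≤ M) :
    ∑ i ∈ F, RCLike.re (ρ i (T (z i))) ≤ ‖T‖ * M := by
  obtain ⟨σ, hσ, h⟩ := exists_signs F fun i j => RCLike.re (ρ j (T (z i)))
  refine h.trans ?_
  have h1 : ∑ i ∈ F, ∑ j ∈ F, σ i * σ j * RCLike.re (ρ j (T (z i))) =
      RCLike.re ((∑ j ∈ F, ((σ j : ℝ) : 𝕜) • ρ j) (T (∑ i ∈ F, ((σ i : ℝ) : 𝕜) • z i))) := by
    rw [map_sum, map_sum, map_sum]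
    refine Finset.sum_congr rfl fun i _ => ?_
    rw [map_smul, map_smul, sum_apply, smul_eq_mul, Finset.mul_sum, map_sum]
    refine Finset.sum_congr rfl fun j _ => ?_
    rw [smul_apply, smul_eq_mul, RCLike.re_ofReal_mul, RCLike.re_ofReal_mul,
      mul_assoc]
  rw [h1]
  calc _ ≤ ‖(∑ j ∈ F, ((σ j : ℝ) : 𝕜) • ρ j) (T (∑ i ∈ F, ((σ i : ℝ) : 𝕜) • z i))‖ :=
        RCLike.re_le_norm _
    _ ≤ ‖∑ j ∈ F, ((σ j : ℝ) : 𝕜) • ρ j‖ * (‖T‖ * ‖∑ i ∈ F, ((σ i : ℝ) : 𝕜) • z i‖) :=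
        (ContinuousLinearMap.le_opNorm _ _).trans
          (mul_le_mul_of_nonneg_left (T.le_opNorm _) (norm_nonneg _))
    _ = ‖T‖ * (‖∑ i ∈ F, ((σ i : ℝ) : 𝕜) • z i‖ * ‖∑ i ∈ F, ((σ i : ℝ) : 𝕜) • ρ i‖) := by ring
    _ ≤ ‖T‖ * M := mul_le_mul_of_nonneg_left (hM σ hσ) (norm_nonneg _)

lemma cls_ext {U : Ultrafilter ℕ} {x y : BoundedContinuousFunction ℕ E} (h : ∀ n, x n = y n) :
    (cls U x : Ultrapower 𝕜 E U) = cls U y := by
  congr 1
  ext n
  exact h n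

lemma upOp_zero (U : Ultrafilter ℕ) : upOp U (0 : E →L[𝕜] E) = 0 := by
  ext ξ
  induction ξ using Submodule.Quotient.induction_on with
  | H x =>
    refine (upOp_cls U (0 : E →L[𝕜] E) x).trans ?_
    exact cls_ext (y := 0) fun n => by simp

lemma upOp_add (U : Ultrafilter ℕ) (T R : E →L[𝕜] E) : upOp U (T + R) = upOp U T + upOp U R := by
  ext ξ
  induction ξ using Submodule.Quotient.induction_on with
  | H x =>
    refine (upOp_cls U (T + R) x).trans ?_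
    exact cls_ext (y := T.compLeftContinuousBounded ℕ x + R.compLeftContinuousBounded ℕ x)
      fun n => by simp

lemma upOp_smul (U : Ultrafilter ℕ) (c : 𝕜) (T : E →L[𝕜] E) :
    upOp U (c • T) = c • upOp U T := by
  ext ξ
  induction ξ using Submodule.Quotient.induction_on with
  | H x =>
    refine (upOp_cls U (c • T) x).trans ?_
    exact cls_ext (y := c • T.compLeftContinuousBounded ℕ x) fun n => by simp

lemma upOp_sum (U : Ultrafilter ℕ) (F : Finset ℕ) (c : ℕ → 𝕜) (T : ℕ → E →L[𝕜] E) :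
    upOp U (∑ k ∈ F, c k • T k) = ∑ k ∈ F, c k • upOp U (T k) := by
  classical
  induction F using Finset.induction_on with
  | empty => rw [Finset.sum_empty, Finset.sum_empty, upOp_zero]
  | insert a F ha ih => rw [Finset.sum_insert ha, Finset.sum_insert ha, upOp_add, upOp_smul, ih]

/-- limits of nonnegative reals inside the scalar field -/
lemma exists_real_lim {U : Ultrafilter ℕ} {t : ℕ → ℝ} {c : 𝕜} (ht : ∀ n, 0 ≤ t n)
    (h : Tendsto (fun n => ((t n : ℝ) : 𝕜)) (U : Filter ℕ) (𝓝 c)) :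
    ∃ τ : ℝ, 0 ≤ τ ∧ c = (τ : 𝕜) := by
  have h1 : Tendsto t (U : Filter ℕ) (𝓝 (RCLike.re c)) := by
    have := (RCLike.continuous_re.tendsto c).comp h
    refine this.congr fun n => ?_
    simp
  refine ⟨RCLike.re c, ge_of_tendsto' h1 ht, ?_⟩
  refine tendsto_nhds_unique h ?_
  exact (RCLike.continuous_ofReal.tendsto _).comp h1

/-- Weighted sums of rank one operators. -/
lemma exists_sum_rank_one {X : Type*} [NormedAddCommGroup X] [NormedSpace 𝕜 X] [CompleteSpace X]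
    (φ : ℕ → StrongDual 𝕜 X) (V : ℕ → X) (hφ : ∀ k, ‖φ k‖ ≤ 1) (hV : ∀ k, ‖V k‖ ≤ 1) :
    ∃ S : X →L[𝕜] X,
      (∀ (F : Finset X) (e : ℝ), 0 < e → ∃ K : ℕ, ∀ T : ℕ → X →L[𝕜] X,
        (∀ k, ∀ ξ ∈ F, ‖T k ξ - φ k ξ • V k‖ ≤ e / 4) →
        ∀ ξ ∈ F, ‖(∑ k ∈ Finset.range K, (((1 / 2 : ℝ) ^ k : ℝ) : 𝕜) • T k) ξ - S ξ‖ ≤ e) ∧
      (∀ (ξ : X) (ψ : StrongDual 𝕜 X) (k : ℕ),
        (∀ j, ∃ τ : ℝ, 0 ≤ τ ∧ φ j ξ = (τ : 𝕜)) → (∀ j, ∃ τ : ℝ, 0 ≤ τ ∧ ψ (V j) = (τ : 𝕜)) →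
        φ k ξ = 1 → ψ (V k) = 1 → (1 / 2 : ℝ) ^ k ≤ RCLike.re (ψ (S ξ))) := by
  classical
  let Sk : ℕ → X →L[𝕜] X := fun k => (φ k).smulRight (V k)
  have hSk : ∀ k, ‖Sk k‖ ≤ 1 := by
    intro k
    rw [ContinuousLinearMap.norm_smulRight_apply]
    exact mul_le_one₀ (hφ k) (norm_nonneg _) (hV k)
  let c : ℕ → 𝕜 := fun k => (((1 / 2 : ℝ) ^ k : ℝ) : 𝕜)
  have hcn : ∀ k, ‖c k‖ = (1 / 2) ^ k := by
    intro k
    rw [RCLike.norm_ofReal, abs_of_nonneg (by positivity)]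
  have hsum : Summable fun k => c k • Sk k := by
    refine Summable.of_norm_bounded (g := fun k : ℕ => (1 / 2 : ℝ) ^ k) summable_geometric_two ?_
    intro k
    rw [norm_smul, hcn]
    exact mul_le_of_le_one_right (by positivity) (hSk k)
  obtain ⟨S, hS⟩ := hsum
  refine ⟨S, ?_, ?_⟩
  · intro F e he
    obtain ⟨M, hM0, hM⟩ : ∃ M : ℝ, 0 < M ∧ ∀ ξ ∈ F, ‖ξ‖ ≤ M := by
      refine ⟨∑ ξ ∈ F, ‖ξ‖ + 1, by positivity, fun ξ hξ => ?_⟩
      have := Finset.single_le_sum (f := fun ξ : X => ‖ξ‖) (fun _ _ => norm_nonneg _) hξ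
      linarith
    have h1 := (Metric.tendsto_atTop.1 hS.tendsto_sum_nat) (e / (2 * M)) (by positivity)
    obtain ⟨K, hK⟩ := h1
    have hK := hK K le_rfl
    refine ⟨K, fun T hT ξ hξ => ?_⟩
    have h3 : ‖(∑ k ∈ Finset.range K, c k • T k) ξ -
        (∑ k ∈ Finset.range K, c k • Sk k) ξ‖ ≤ e / 2 := by
      rw [sum_apply, sum_apply, ← Finset.sum_sub_distrib]
      calc ‖∑ k ∈ Finset.range K, ((c k • T k) ξ - (c k • Sk k) ξ)‖
          ≤ ∑ k ∈ Finset.range K, (1 / 2 : ℝ) ^ k * (e / 4) := by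
            refine norm_sum_le_of_le _ fun k _ => ?_
            rw [smul_apply, smul_apply, ← smul_sub,
              norm_smul, hcn]
            exact mul_le_mul_of_nonneg_left (hT k ξ hξ) (by positivity)
        _ = (∑ k ∈ Finset.range K, (1 / 2 : ℝ) ^ k) * (e / 4) := by rw [Finset.sum_mul]
        _ ≤ 2 * (e / 4) := by
            refine mul_le_mul_of_nonneg_right ?_ (by positivity)
            calc ∑ k ∈ Finset.range K, (1 / 2 : ℝ) ^ k ≤ ∑' m : ℕ, (1 / 2 : ℝ) ^ m :=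
                summable_geometric_two.sum_le_tsum _ (fun _ _ => by positivity)
              _ = 2 := tsum_geometric_two
        _ = e / 2 := by ring
    have h4 : ‖(∑ k ∈ Finset.range K, c k • Sk k) ξ - S ξ‖ ≤ e / 2 := by
      rw [← sub_apply]
      rw [dist_eq_norm] at hK
      calc _ ≤ ‖∑ k ∈ Finset.range K, c k • Sk k - S‖ * ‖ξ‖ := ContinuousLinearMap.le_opNorm _ _
        _ ≤ e / (2 * M) * M := mul_le_mul hK.le (hM ξ hξ) (norm_nonneg _) (by positivity)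
        _ = e / 2 := by field_simp
    calc _ = ‖((∑ k ∈ Finset.range K, c k • T k) ξ -
        (∑ k ∈ Finset.range K, c k • Sk k) ξ) +
          ((∑ k ∈ Finset.range K, c k • Sk k) ξ - S ξ)‖ := by congr 1; abel
      _ ≤ e / 2 + e / 2 := (norm_add_le _ _).trans (add_le_add h3 h4)
      _ = e := by ring
  · intro ξ ψ k h1 h2 hk1 hk2
    choose τ hτ0 hτ using h1
    choose υ hυ0 hυ using h2
    have hτk : τ k = 1 := by
      rw [hτ k] at hk1
      exact_mod_cast hk1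
    have hυk : υ k = 1 := by
      rw [hυ k] at hk2
      exact_mod_cast hk2
    let G : (X →L[𝕜] X) →+ ℝ :=
      { toFun := fun A => RCLike.re (ψ (A ξ))
        map_zero' := by simp
        map_add' := by intro A A'; simp }
    have hG : Continuous G := by
      change Continuous fun A : X →L[𝕜] X => RCLike.re (ψ (A ξ))
      exact RCLike.continuous_re.comp
        (ψ.continuous.comp (ContinuousLinearMap.apply 𝕜 _ ξ).continuous)
    have h3 : HasSum (fun j => G (c j • Sk j)) (G S) := hS.map G hG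
    have h4 : ∀ j, G (c j • Sk j) = (1 / 2) ^ j * (τ j * υ j) := by
      intro j
      have h6 : ψ ((c j • Sk j) ξ) = (((1 / 2 : ℝ) ^ j : ℝ) : 𝕜) * ((τ j : 𝕜) * (υ j : 𝕜)) := by
        have h7 : (c j • Sk j) ξ = c j • (φ j ξ • V j) := rfl
        rw [h7, hτ, ψ.map_smul, ψ.map_smul, hυ, smul_eq_mul, smul_eq_mul]
      change RCLike.re (ψ ((c j • Sk j) ξ)) = _
      rw [h6, RCLike.re_ofReal_mul, RCLike.re_ofReal_mul, RCLike.ofReal_re]
    have h5 : G (c k • Sk k) ≤ G S := by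
      refine le_hasSum h3 k fun j _ => ?_
      rw [h4]
      exact mul_nonneg (by positivity) (mul_nonneg (hτ0 j) (hυ0 j))
    rw [h4, hτk, hυk, mul_one, mul_one] at h5
    exact h5

theorem criterion [CompleteSpace E] {U : Ultrafilter ℕ} (hU : Selective U) (hn : Nonprincipal U)
    (v z : ℕ → BoundedContinuousFunction ℕ E) (w ρ : ℕ → ℕ → StrongDual 𝕜 E)
    (hv1 : ∀ k, ‖v k‖ ≤ 1) (hw1 : ∀ k n, ‖w k n‖ ≤ 1) (hρ1 : ∀ k n, ‖ρ k n‖ ≤ 1)
    (C B : ℕ → ℝ) (hC : ∀ k, 0 ≤ C k) (hB : ∀ k, 0 ≤ B k)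
    (hv : ∀ k, Upper2 𝕜 (C k) (v k)) (hw : ∀ k, Bessel (B k) (w k))
    (t s : ℕ → ℕ → ℕ → ℝ) (ht : ∀ j k n, w j n (z k n) = (t j k n : 𝕜))
    (ht0 : ∀ j k n, 0 ≤ t j k n) (ht1 : ∀ k n, t k k n = 1)
    (hs : ∀ j k n, ρ k n (v j n) = (s j k n : 𝕜))
    (hs0 : ∀ j k n, 0 ≤ s j k n) (hs1 : ∀ k n, s k k n = 1)
    (δ : ℕ → ℝ) (hδ : ∀ (k : ℕ) (e : ℝ), 0 < e → ∃ N : ℕ, 0 < N ∧ ∀ F : Finset ℕ, F.card = N →
      ∀ σ : ℕ → ℝ, (∀ i, σ i = 1 ∨ σ i = -1) →
        ‖∑ i ∈ F, ((σ i : ℝ) : 𝕜) • z k i‖ * ‖∑ i ∈ F, ((σ i : ℝ) : 𝕜) • ρ k i‖ ≤ N * (δ k + e))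
    (hδ2 : Tendsto (fun k => 2 ^ k * δ k) atTop (𝓝 0)) :
    ∃ S ∈ opClosure 𝕜 E U, ∀ r, S ∉ opClosureBdd 𝕜 E U r := by
  classical
  have hφ := fun k => exists_limFun U (w k) 1 (hw1 k)
  choose φ hφ1 hφ using hφ
  have hψ := fun k => exists_limFun U (ρ k) 1 (hρ1 k)
  choose ψ hψ1 hψ using hψ
  have hV : ∀ k, ‖(cls U (v k) : Ultrapower 𝕜 E U)‖ ≤ 1 := fun k =>
    (Submodule.Quotient.norm_mk_le _ _).trans (hv1 k)
  obtain ⟨S, hS1, hS2⟩ := exists_sum_rank_one φ (fun k => cls U (v k)) hφ1 hV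
  refine ⟨S, ?_, ?_⟩
  · -- in the closure
    apply mem_opClosure_of
    intro F e he
    obtain ⟨K, hK⟩ := hS1 F e he
    have h2 : ∀ k, ∃ T : E →L[𝕜] E, ∀ ξ ∈ F, ‖upOp U T ξ - φ k ξ • cls U (v k)‖ ≤ e / 4 :=
      fun k => rank_one_approx hU hn (hC k) (hB k) (hv k) (hw k) (φ k) (hφ k) F (e / 4)
        (by positivity)
    choose T hT using h2
    refine ⟨∑ k ∈ Finset.range K, (((1 / 2 : ℝ) ^ k : ℝ) : 𝕜) • T k, fun ξ hξ => ?_⟩
    rw [upOp_sum]
    exact hK (fun k => upOp U (T k)) hT ξ hξ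
  · -- in no bounded closure
    intro r hr
    let ξ : ℕ → Ultrapower 𝕜 E U := fun k => cls U (z k)
    have hlow : ∀ k, (1 / 2 : ℝ) ^ k ≤ RCLike.re (ψ k (S (ξ k))) := by
      intro k
      have h1 : ∀ j, ∃ τ : ℝ, 0 ≤ τ ∧ φ j (ξ k) = (τ : 𝕜) := by
        intro j
        refine exists_real_lim (U := U) (ht0 j k) ?_
        refine (hφ j (z k)).congr fun n => ?_
        exact ht j k n
      have h2 : φ k (ξ k) = 1 := by
        refine tendsto_nhds_unique (hφ k (z k)) ?_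
        refine tendsto_const_nhds.congr fun n => ?_
        rw [ht, ht1, RCLike.ofReal_one]
      have h3 : ∀ j, ∃ τ : ℝ, 0 ≤ τ ∧ ψ k (cls U (v j)) = (τ : 𝕜) := by
        intro j
        refine exists_real_lim (U := U) (hs0 j k) ?_
        refine (hψ k (v j)).congr fun n => ?_
        exact hs j k n
      have h4 : ψ k (cls U (v k)) = 1 := by
        refine tendsto_nhds_unique (hψ k (v k)) ?_
        refine tendsto_const_nhds.congr fun n => ?_
        rw [hs, hs1, RCLike.ofReal_one]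
      exact hS2 (ξ k) (ψ k) k h1 h3 h2 h4
    have hr0 : 0 ≤ r := by
      obtain ⟨T, hT, _⟩ := exists_of_mem_opClosureBdd hr 0 0 one_pos
      exact (norm_nonneg _).trans hT
    have hkey : ∀ k, (1 / 4 : ℝ) ≤ r * (2 ^ k * δ k) := by
      intro k
      have hp : (0 : ℝ) < (1 / 2) ^ k := by positivity
      obtain ⟨T, hT, hTk⟩ := exists_of_mem_opClosureBdd hr (ξ k) (ψ k)
        (show (0 : ℝ) < (1 / 2) ^ k / 2 by positivity)
      have h1 : (1 / 2 : ℝ) ^ k / 2 < RCLike.re (ψ k (upOp U T (ξ k))) := by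
        have h2 : |RCLike.re (ψ k (upOp U T (ξ k)) - ψ k (S (ξ k)))| < (1 / 2 : ℝ) ^ k / 2 :=
          (RCLike.abs_re_le_norm _).trans_lt hTk
        rw [map_sub] at h2
        have h3 := (abs_lt.1 h2).1
        have h4 := hlow k
        linarith
      have h2 : Tendsto (fun n => RCLike.re (ρ k n (T (z k n)))) (U : Filter ℕ)
          (𝓝 (RCLike.re (ψ k (upOp U T (ξ k))))) := by
        have h3 := hψ k (T.compLeftContinuousBounded ℕ (z k))
        exact (RCLike.continuous_re.tendsto _).comp h3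
      have h3 : {n | (1 / 2 : ℝ) ^ k / 2 < RCLike.re (ρ k n (T (z k n)))} ∈ U :=
        h2.eventually_const_lt h1
      have h4 : {n | (1 / 2 : ℝ) ^ k / 2 < RCLike.re (ρ k n (T (z k n)))}.Infinite :=
        fun h => finite_notMem hn h h3
      have h5 : ∀ e : ℝ, 0 < e → (1 / 2 : ℝ) ^ k / 2 ≤ r * (δ k + e) := by
        intro e he
        obtain ⟨N, hN, hNF⟩ := hδ k e he
        obtain ⟨F, hFs, hFc⟩ := h4.exists_subset_card_eq N
        have h6 := avg_bound T (z k) (ρ k) F (N * (δ k + e)) (hNF F hFc)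
        have h7 : (N : ℝ) * ((1 / 2 : ℝ) ^ k / 2) ≤ ∑ i ∈ F, RCLike.re (ρ k i (T (z k i))) := by
          rw [← hFc, ← nsmul_eq_mul]
          exact Finset.card_nsmul_le_sum F _ _ fun i hi => (hFs hi).le
        have h8 : (0 : ℝ) < N := by exact_mod_cast hN
        have h9 : 0 ≤ (N : ℝ) * (δ k + e) := by
          refine le_trans ?_ (hNF F hFc (fun _ => 1) (fun _ => Or.inl rfl))
          positivity
        have h10 : (N : ℝ) * ((1 / 2 : ℝ) ^ k / 2) ≤ N * (r * (δ k + e)) := by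
          calc _ ≤ ‖T‖ * (N * (δ k + e)) := h7.trans h6
            _ ≤ r * (N * (δ k + e)) := mul_le_mul_of_nonneg_right hT h9
            _ = _ := by ring
        exact le_of_mul_le_mul_left h10 h8
      have h6 : (1 / 2 : ℝ) ^ k / 2 ≤ r * δ k := by
        apply le_of_forall_pos_le_add
        intro e he
        have h7 := h5 (e / (r + 1)) (by positivity)
        have h8 : r * (e / (r + 1)) ≤ e := by
          rw [mul_div_assoc', div_le_iff₀ (by positivity)]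
          nlinarith
        linarith
      have h7 : (2 : ℝ) ^ k * (1 / 2) ^ k = 1 := by rw [← mul_pow]; norm_num
      have h8 : (0 : ℝ) < 2 ^ k := by positivity
      have h9 := mul_le_mul_of_nonneg_left h6 h8.le
      have h10 : (2 : ℝ) ^ k * ((1 / 2) ^ k / 2) = 1 / 2 := by rw [mul_div_assoc', h7]
      rw [h10] at h9
      have h11 : (2 : ℝ) ^ k * (r * δ k) = r * (2 ^ k * δ k) := by ring
      rw [h11] at h9
      linarith
    have h1 : Tendsto (fun k => r * (2 ^ k * δ k)) atTop (𝓝 (r * 0)) := hδ2.const_mul r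
    have h2 := ge_of_tendsto' h1 hkey
    rw [mul_zero] at h2
    norm_num at h2

end Pool.Agent.K1H32.WU
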