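import Mathlib
import Pool.Agent.H66R3.PG.Cyl
import Pool.Agent.BAPp.Khin

/-! Rademacher signs and independent events on `[0,1]` given by binary digits: interface. -/

set_option autoImplicit false

open MeasureTheory Finset Pool.Agent.H66R3.PG Pool.Agent.BAPp

namespace Pool.Agent.K1H32.WU

/-- The sign given by the digit with index `(n,0)`. -/
noncomputable def rad (n : ℕ) (t : ℝ) : ℝ := sgn (dig t (Nat.pair n 0))

/-- The indicator of the event that the digits with indices `(n,1),…,(n,m)` are all `true`. -/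
noncomputable def evt (m n : ℕ) (t : ℝ) : ℝ :=
  if ∀ l < m, dig t (Nat.pair n (l + 1)) = true then 1 else 0

/-- Khintchine for the functions `rad · evt` (flip the digits `(i,0)`, average over the signs, use
`Khin.khinchine` pointwise with coefficients `a i * rad i t * evt m i t`). -/
def S_kh : Prop := ∀ (s : ℝ), 1 ≤ s → ∀ (m : ℕ) (F : Finset ℕ) (a : ℕ → ℝ),
  ∫ t, |∑ i ∈ F, a i * (rad i t * evt m i t)| ^ s ∂mu ≤
    4 * s ^ s * ∫ t, (∑ i ∈ F, a i ^ 2 * evt m i t) ^ (s / 2) ∂mu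

/-- Orthogonality. -/
def S_orth : Prop := ∀ (m : ℕ) (F : Finset ℕ) (a : ℕ → ℝ),
  ∫ t, (∑ i ∈ F, a i * (rad i t * evt m i t)) ^ 2 ∂mu = (1 / 2) ^ m * ∑ i ∈ F, a i ^ 2

/-- The probability of the event. -/
def S_meas : Prop := ∀ m n : ℕ, ∫ t, evt m n t ∂mu = (1 / 2) ^ m

/-- The number of events that occur (pairwise independence, `|x ^ q - y ^ q| ≤ q |x - y|` on
`[0,1]`, and Cauchy-Schwarz for the variance). -/
def S_count : Prop := ∀ (q : ℝ), 1 ≤ q → ∀ (m : ℕ) (F : Finset ℕ), F.Nonempty →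
  ∫ t, (∑ i ∈ F, evt m i t) ^ q ∂mu ≤
    (F.card : ℝ) ^ q * ((1 / 2 : ℝ) ^ (m * q) + q / Real.sqrt F.card)

end Pool.Agent.K1H32.WU
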