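import Pool.Agent.K1H32.WU.Abs
import Pool.Agent.K1H32.WU.Stm

/-! Real functions inside `L^p([0,1])`, the duality pairing, square function bounds. -/

set_option autoImplicit false

open MeasureTheory Finset Pool.Agent.H66R3.PG Pool.Agent.BAPp
open scoped ENNReal

namespace Pool.Agent.K1H32.WU

/-- measurable and bounded -/
def Nice (f : ℝ → ℝ) : Prop := Measurable f ∧ ∃ C, ∀ t, |f t| ≤ C

lemma Nice.memLp {f : ℝ → ℝ} (h : Nice f) (𝕜 : Type*) [RCLike 𝕜] (p : ℝ≥0∞) :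
    MemLp (fun t => ((f t : ℝ) : 𝕜)) p mu := by
  obtain ⟨hm, C, hC⟩ := h
  refine MemLp.of_bound ?_ C (Filter.Eventually.of_forall fun t => ?_)
  · exact (RCLike.measurable_ofReal.comp hm).aestronglyMeasurable
  · rw [RCLike.norm_ofReal]; exact hC t

lemma Nice.integrable {f : ℝ → ℝ} (h : Nice f) : Integrable f mu := by
  obtain ⟨hm, C, hC⟩ := h
  exact Integrable.of_bound hm.aestronglyMeasurable C
    (Filter.Eventually.of_forall fun t => by rw [Real.norm_eq_abs]; exact hC t)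

lemma Nice.mul {f g : ℝ → ℝ} (hf : Nice f) (hg : Nice g) : Nice fun t => f t * g t := by
  obtain ⟨hfm, C, hC⟩ := hf
  obtain ⟨hgm, D, hD⟩ := hg
  refine ⟨hfm.mul hgm, C * D, fun t => ?_⟩
  rw [abs_mul]
  exact mul_le_mul (hC t) (hD t) (abs_nonneg _) ((abs_nonneg _).trans (hC t))

lemma Nice.const_mul {f : ℝ → ℝ} (c : ℝ) (hf : Nice f) : Nice fun t => c * f t :=
  Nice.mul ⟨measurable_const, |c|, fun _ => le_rfl⟩ hf

lemma Nice.sum {F : Finset ℕ} {f : ℕ → ℝ → ℝ} (hf : ∀ i, Nice (f i)) :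
    Nice fun t => ∑ i ∈ F, f i t := by
  choose hm C hC using hf
  refine ⟨Finset.measurable_sum F fun i _ => hm i, ∑ i ∈ F, C i, fun t => ?_⟩
  exact (Finset.abs_sum_le_sum_abs _ _).trans (Finset.sum_le_sum fun i _ => hC i t)

lemma measurable_rad (n : ℕ) : Measurable (rad n) := by
  unfold rad
  exact (measurable_of_countable sgn).comp (measurable_dig _)

lemma nice_rad (n : ℕ) : Nice (rad n) := by
  refine ⟨measurable_rad n, 1, fun t => ?_⟩
  rw [rad, Khin.abs_sgn]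

lemma nice_evt (m n : ℕ) : Nice (evt m n) := by
  refine ⟨?_, 1, fun t => ?_⟩
  · unfold evt
    refine Measurable.ite ?_ measurable_const measurable_const
    have : {t : ℝ | ∀ l < m, dig t (Nat.pair n (l + 1)) = true} =
        ⋂ l ∈ Set.Iio m, (fun t => dig t (Nat.pair n (l + 1))) ⁻¹' {true} := by
      ext t; simp
    rw [this]
    refine MeasurableSet.biInter (Set.finite_Iio m).countable fun l _ => ?_
    exact measurable_dig _ (measurableSet_singleton _)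
  · unfold evt
    split_ifs <;> simp

/-- the normalised functions -/
noncomputable def G (x : ℝ) (m n : ℕ) (t : ℝ) : ℝ := 2 ^ ((m : ℝ) / x) * (rad n t * evt m n t)

lemma nice_G (x : ℝ) (m n : ℕ) : Nice (G x m n) :=
  ((nice_rad n).mul (nice_evt m n)).const_mul _

lemma evt_nonneg (m n : ℕ) (t : ℝ) : 0 ≤ evt m n t := by
  unfold evt; split_ifs <;> norm_num

lemma evt_mul_self (m n : ℕ) (t : ℝ) : evt m n t * evt m n t = evt m n t := by
  unfold evt; split_ifs <;> norm_num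

lemma evt_zero (n : ℕ) (t : ℝ) : evt 0 n t = 1 := by
  unfold evt
  rw [if_pos]
  intro l hl
  omega

lemma rad_mul_self (n : ℕ) (t : ℝ) : rad n t * rad n t = 1 := by
  rw [rad, Khin.sgn_sq]

lemma abs_rad (n : ℕ) (t : ℝ) : |rad n t| = 1 := by
  rw [rad, Khin.abs_sgn]

section emb

variable (𝕜 : Type*) [RCLike 𝕜]

open Classical in
/-- The class in `L^p` of a real function. -/
noncomputable def emb (p : ℝ≥0∞) (f : ℝ → ℝ) : Lp 𝕜 p mu :=
  if h : MemLp (fun t => ((f t : ℝ) : 𝕜)) p mu then h.toLp else 0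

lemma emb_eq {p : ℝ≥0∞} {f : ℝ → ℝ} (h : Nice f) : emb 𝕜 p f = (h.memLp 𝕜 p).toLp :=
  dif_pos (h.memLp 𝕜 p)

lemma norm_emb {p : ℝ≥0∞} (hp0 : p ≠ 0) (hp : p ≠ ∞) {f : ℝ → ℝ} (h : Nice f) :
    ‖emb 𝕜 p f‖ = (∫ t, |f t| ^ p.toReal ∂mu) ^ (p.toReal⁻¹) := by
  rw [emb_eq 𝕜 h, Lp.norm_toLp, (h.memLp 𝕜 p).eLpNorm_eq_integral_rpow_norm hp0 hp,
    ENNReal.toReal_ofReal]
  · congr 1
    refine integral_congr_ae (Filter.Eventually.of_forall fun t => ?_)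
    simp only [RCLike.norm_ofReal]
  · refine Real.rpow_nonneg (integral_nonneg fun t => ?_) _
    exact Real.rpow_nonneg (norm_nonneg _) _

lemma norm_emb_le_two {p : ℝ≥0∞} (hp : p ≤ 2) {f : ℝ → ℝ} (h : Nice f) :
    ‖emb 𝕜 p f‖ ≤ √(∫ t, f t ^ 2 ∂mu) := by
  have h1 : ‖emb 𝕜 p f‖ ≤ ‖emb 𝕜 2 f‖ := by
    rw [emb_eq 𝕜 h, emb_eq 𝕜 h, Lp.norm_toLp, Lp.norm_toLp]
    refine ENNReal.toReal_mono (h.memLp 𝕜 2).eLpNorm_ne_top ?_
    exact eLpNorm_le_eLpNorm_of_exponent_le hp (h.memLp 𝕜 p).1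
  refine h1.trans ?_
  rw [norm_emb 𝕜 two_ne_zero (by norm_num) h, Real.sqrt_eq_rpow, ENNReal.toReal_ofNat]
  have h2 : ∫ t, |f t| ^ (2 : ℝ) ∂mu = ∫ t, f t ^ 2 ∂mu := by
    refine integral_congr_ae (Filter.Eventually.of_forall fun t => ?_)
    simp only [Real.rpow_two, sq_abs]
  rw [h2]
  norm_num

lemma sum_emb {p : ℝ≥0∞} (F : Finset ℕ) (a : ℕ → ℝ) {f : ℕ → ℝ → ℝ} (hf : ∀ i, Nice (f i)) :
    ∑ i ∈ F, ((a i : ℝ) : 𝕜) • emb 𝕜 p (f i) = emb 𝕜 p (fun t => ∑ i ∈ F, a i * f i t) := by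
  classical
  induction F using Finset.induction_on with
  | empty =>
    rw [Finset.sum_empty]
    have h1 : Nice (fun t : ℝ => ∑ i ∈ (∅ : Finset ℕ), a i * f i t) :=
      Nice.sum fun i => (hf i).const_mul _
    rw [emb_eq 𝕜 h1]
    symm
    have h0 : MemLp (0 : ℝ → 𝕜) p mu := MemLp.zero
    rw [← MemLp.toLp_zero h0]
    exact MemLp.toLp_congr _ _ (Filter.Eventually.of_forall fun t => by simp)
  | insert j F hj ih =>
    rw [Finset.sum_insert hj, ih]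
    have h1 : Nice (fun t : ℝ => ∑ i ∈ F, a i * f i t) := Nice.sum fun i => (hf i).const_mul _
    have h2 : Nice (fun t : ℝ => ∑ i ∈ insert j F, a i * f i t) :=
      Nice.sum fun i => (hf i).const_mul _
    rw [emb_eq 𝕜 h1, emb_eq 𝕜 h2, emb_eq 𝕜 (hf j), ← MemLp.toLp_const_smul, ← MemLp.toLp_add]
    refine MemLp.toLp_congr _ _ (Filter.Eventually.of_forall fun t => ?_)
    simp only [Pi.add_apply, Pi.smul_apply, smul_eq_mul]
    rw [Finset.sum_insert hj]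
    push_cast
    ring

/-- The pairing of `L^q` and `L^p`. -/
noncomputable def pair (p q : ℝ≥0∞) [Fact (1 ≤ p)] [Fact (1 ≤ q)]
    [ENNReal.HolderConjugate q p] :
    Lp 𝕜 q mu →L[𝕜] StrongDual 𝕜 (Lp 𝕜 p mu) :=
  (ContinuousLinearMap.mul 𝕜 𝕜).lpPairing mu q p

variable {p q : ℝ≥0∞} [Fact (1 ≤ p)] [Fact (1 ≤ q)] [ENNReal.HolderConjugate q p]

lemma norm_pair_le (h : Lp 𝕜 q mu) : ‖pair 𝕜 p q h‖ ≤ ‖h‖ := by
  refine ContinuousLinearMap.opNorm_le_bound _ (norm_nonneg _) fun f => ?_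
  have h1 : pair 𝕜 p q h f = L1.integral ((ContinuousLinearMap.mul 𝕜 𝕜).holder 1 h f) := by
    rw [L1.integral_eq_integral, pair, ContinuousLinearMap.lpPairing_eq_integral]
    exact integral_congr_ae ((ContinuousLinearMap.mul 𝕜 𝕜).coeFn_holder h f).symm
  rw [h1]
  refine (L1.norm_integral_le _).trans ?_
  refine (ContinuousLinearMap.norm_holder_apply_apply_le _ h f).trans ?_
  have h2 := ContinuousLinearMap.opNorm_mul_le 𝕜 𝕜
  calc _ ≤ 1 * ‖h‖ * ‖f‖ := by gcongr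
    _ = _ := by rw [one_mul]

lemma pair_emb {f g : ℝ → ℝ} (hf : Nice f) (hg : Nice g) :
    pair 𝕜 p q (emb 𝕜 q g) (emb 𝕜 p f) = ((∫ t, g t * f t ∂mu : ℝ) : 𝕜) := by
  rw [pair, ContinuousLinearMap.lpPairing_eq_integral, ← integral_ofReal]
  refine integral_congr_ae ?_
  rw [emb_eq 𝕜 hf, emb_eq 𝕜 hg]
  filter_upwards [(hf.memLp 𝕜 p).coeFn_toLp, (hg.memLp 𝕜 q).coeFn_toLp] with t h1 h2
  rw [h1, h2]
  simp

end emb

section upper

variable {𝕜 : Type*} [RCLike 𝕜] {E : Type*} [NormedAddCommGroup E] [NormedSpace 𝕜 E]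

/-- real coefficients suffice for the upper estimate -/
lemma upper2_of_real {C : ℝ} (hC : 0 ≤ C) {v : ℕ → E}
    (h : ∀ (F : Finset ℕ) (a : ℕ → ℝ),
      ‖∑ i ∈ F, ((a i : ℝ) : 𝕜) • v i‖ ≤ C * √(∑ i ∈ F, a i ^ 2)) : Upper2 𝕜 (2 * C) v := by
  intro F a
  have h1 : ∑ i ∈ F, a i • v i = (∑ i ∈ F, ((RCLike.re (a i) : ℝ) : 𝕜) • v i) +
      (RCLike.I : 𝕜) • ∑ i ∈ F, ((RCLike.im (a i) : ℝ) : 𝕜) • v i := by
    rw [Finset.smul_sum, ← Finset.sum_add_distrib]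
    refine Finset.sum_congr rfl fun i _ => ?_
    rw [smul_smul, ← add_smul]
    congr 1
    conv_lhs => rw [← RCLike.re_add_im (a i)]
    ring
  have h2 : ∀ b : ℕ → ℝ, (∀ i, |b i| ≤ ‖a i‖) →
      ‖∑ i ∈ F, ((b i : ℝ) : 𝕜) • v i‖ ≤ C * √(∑ i ∈ F, ‖a i‖ ^ 2) := by
    intro b hb
    refine (h F b).trans (mul_le_mul_of_nonneg_left (Real.sqrt_le_sqrt ?_) hC)
    refine Finset.sum_le_sum fun i _ => ?_
    rw [← sq_abs]
    exact pow_le_pow_left₀ (abs_nonneg _) (hb i) 2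
  rw [h1]
  calc _ ≤ ‖∑ i ∈ F, ((RCLike.re (a i) : ℝ) : 𝕜) • v i‖ +
        ‖(RCLike.I : 𝕜) • ∑ i ∈ F, ((RCLike.im (a i) : ℝ) : 𝕜) • v i‖ := norm_add_le _ _
    _ ≤ C * √(∑ i ∈ F, ‖a i‖ ^ 2) + C * √(∑ i ∈ F, ‖a i‖ ^ 2) := by
      refine add_le_add (h2 _ fun i => RCLike.abs_re_le_norm _) ?_
      rw [norm_smul]
      calc _ ≤ 1 * ‖∑ i ∈ F, ((RCLike.im (a i) : ℝ) : 𝕜) • v i‖ :=
            mul_le_mul_of_nonneg_right (by rw [RCLike.norm_I]; split_ifs <;> norm_num)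
              (norm_nonneg _)
        _ ≤ _ := by rw [one_mul]; exact h2 _ fun i => RCLike.abs_im_le_norm _
    _ = _ := by ring

/-- the upper estimate for functionals gives a Bessel inequality -/
lemma bessel_of_upper2 {B : ℝ} (hB : 0 ≤ B) {w : ℕ → StrongDual 𝕜 E} (h : Upper2 𝕜 B w) :
    Bessel B w := by
  intro F f
  set X : ℝ := ∑ i ∈ F, ‖w i f‖ ^ 2 with hX
  have hX0 : 0 ≤ X := Finset.sum_nonneg fun _ _ => by positivity
  have h1 : ((X : ℝ) : 𝕜) = (∑ i ∈ F, (starRingEnd 𝕜) (w i f) • w i) f := by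
    rw [hX, _root_.sum_apply]
    push_cast
    refine Finset.sum_congr rfl fun i _ => ?_
    change _ = (starRingEnd 𝕜) (w i f) * w i f
    rw [RCLike.conj_mul]
  have h2 : X ≤ B * √X * ‖f‖ := by
    calc X = ‖((X : ℝ) : 𝕜)‖ := by rw [RCLike.norm_ofReal, abs_of_nonneg hX0]
      _ ≤ ‖∑ i ∈ F, (starRingEnd 𝕜) (w i f) • w i‖ * ‖f‖ := by
        rw [h1]; exact ContinuousLinearMap.le_opNorm _ _
      _ ≤ (B * √X) * ‖f‖ := by
        refine mul_le_mul_of_nonneg_right ?_ (norm_nonneg _)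
        refine (h F _).trans (le_of_eq ?_)
        simp only [RCLike.norm_conj]
        rw [hX]
  have h3 : √X * √X = X := Real.mul_self_sqrt hX0
  rcases hX0.eq_or_lt with h4 | h4
  · rw [← h4]; positivity
  · have h5 : 0 < √X := Real.sqrt_pos.2 h4
    have h6 : √X ≤ B * ‖f‖ := by
      have h7 : √X * √X ≤ √X * (B * ‖f‖) := by rw [h3]; linarith
      exact le_of_mul_le_mul_left h7 h5
    calc X = √X ^ 2 := by rw [sq, h3]
      _ ≤ _ := pow_le_pow_left₀ h5.le h6 2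

lemma Upper2.map {E' : Type*} [NormedAddCommGroup E'] [NormedSpace 𝕜 E'] {C : ℝ} {v : ℕ → E}
    (h : Upper2 𝕜 C v) (P : E →L[𝕜] E') (hP : ∀ x, ‖P x‖ ≤ ‖x‖) :
    Upper2 𝕜 C fun n => P (v n) := by
  intro F a
  have h1 : ∑ i ∈ F, a i • P (v i) = P (∑ i ∈ F, a i • v i) := by
    rw [map_sum]
    exact Finset.sum_congr rfl fun i _ => by rw [map_smul]
  rw [h1]
  exact (hP _).trans (h F a)

end upper

end Pool.Agent.K1H32.WU
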