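import Pool.Agent.K1H32.WU.Conc

/-! The theorem for `L^p([0,1])`, from the four facts on Rademacher signs and events. -/

set_option autoImplicit false

open MeasureTheory Finset Filter Topology Pool.Agent.H66R3.PG Pool.Agent.BAPp
open scoped ENNReal

namespace Pool.Agent.K1H32.WU

lemma evt_rpow {x : ℝ} (hx : 0 < x) (m n : ℕ) (t : ℝ) : evt m n t ^ x = evt m n t := by
  unfold evt
  split_ifs
  · exact Real.one_rpow x
  · exact Real.zero_rpow hx.ne'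

lemma two_rpow_mul (m : ℕ) {x : ℝ} (hx : 0 < x) : ((2 : ℝ) ^ ((m : ℝ) / x)) ^ x = 2 ^ m := by
  rw [← Real.rpow_mul (by norm_num), div_mul_cancel₀ _ hx.ne', Real.rpow_natCast]

lemma two_half (m : ℕ) : (2 : ℝ) ^ m * (1 / 2) ^ m = 1 := by rw [← mul_pow]; norm_num

lemma integral_G_rpow (hm : S_meas) {x : ℝ} (hx : 0 < x) (m n : ℕ) :
    ∫ t, |G x m n t| ^ x ∂mu = 1 := by
  have h1 : ∀ t, |G x m n t| ^ x = 2 ^ m * evt m n t := by
    intro t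
    rw [G, abs_mul, abs_mul, abs_rad, one_mul, abs_of_nonneg (evt_nonneg m n t),
      abs_of_nonneg (by positivity), Real.mul_rpow (by positivity) (evt_nonneg m n t),
      two_rpow_mul m hx, evt_rpow hx]
  simp_rw [h1]
  rw [integral_const_mul, hm, two_half]

lemma integral_G_mul (x y : ℝ) (m m' n : ℕ) :
    ∫ t, G y m n t * G x m' n t ∂mu =
      2 ^ ((m : ℝ) / y) * 2 ^ ((m' : ℝ) / x) * ∫ t, evt m n t * evt m' n t ∂mu := by
  rw [← integral_const_mul]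
  refine integral_congr_ae (Eventually.of_forall fun t => ?_)
  simp only [G]
  have := rad_mul_self n t
  calc _ = 2 ^ ((m : ℝ) / y) * 2 ^ ((m' : ℝ) / x) * (rad n t * rad n t) *
        (evt m n t * evt m' n t) := by ring
    _ = _ := by rw [this, mul_one]

lemma integral_G_mul_nonneg (x y : ℝ) (m m' n : ℕ) :
    0 ≤ ∫ t, G y m n t * G x m' n t ∂mu := by
  rw [integral_G_mul]
  refine mul_nonneg (by positivity) (integral_nonneg fun t => ?_)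
  exact mul_nonneg (evt_nonneg _ _ _) (evt_nonneg _ _ _)

lemma integral_G_mul_self (hm : S_meas) {x y : ℝ} (hxy : 1 / x + 1 / y = 1) (m n : ℕ) :
    ∫ t, G y m n t * G x m n t ∂mu = 1 := by
  rw [integral_G_mul]
  simp_rw [evt_mul_self]
  rw [hm, ← Real.rpow_add (by norm_num)]
  have h1 : (m : ℝ) / y + m / x = m := by
    calc _ = (m : ℝ) * (1 / x + 1 / y) := by ring
      _ = m := by rw [hxy, mul_one]
  rw [h1, Real.rpow_natCast, two_half]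

lemma sum_G (x : ℝ) (m : ℕ) (F : Finset ℕ) (a : ℕ → ℝ) (t : ℝ) :
    ∑ i ∈ F, a i * G x m i t =
      2 ^ ((m : ℝ) / x) * ∑ i ∈ F, a i * (rad i t * evt m i t) := by
  rw [Finset.mul_sum]
  exact Finset.sum_congr rfl fun i _ => by rw [G]; ring

section

variable (𝕜 : Type*) [RCLike 𝕜]

lemma nice_sum_G (x : ℝ) (m : ℕ) (F : Finset ℕ) (a : ℕ → ℝ) :
    Nice fun t => ∑ i ∈ F, a i * G x m i t := Nice.sum fun i => (nice_G x m i).const_mul _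

lemma norm_sum_le_two (ho : S_orth) {p : ℝ≥0∞} (hp : p ≤ 2) (m : ℕ) (F : Finset ℕ) (a : ℕ → ℝ) :
    ‖∑ i ∈ F, ((a i : ℝ) : 𝕜) • emb 𝕜 p (G p.toReal m i)‖ ≤
      2 ^ ((m : ℝ) / p.toReal) * √(∑ i ∈ F, a i ^ 2) := by
  rw [sum_emb 𝕜 F a fun i => nice_G _ m i]
  refine (norm_emb_le_two 𝕜 hp (nice_sum_G _ m F a)).trans ?_
  simp_rw [sum_G, mul_pow]
  rw [integral_const_mul, ho]
  have h1 : (0 : ℝ) ≤ 2 ^ ((m : ℝ) / p.toReal) := by positivity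
  have h2 : 0 ≤ ∑ i ∈ F, a i ^ 2 := Finset.sum_nonneg fun _ _ => sq_nonneg _
  rw [Real.sqrt_mul (by positivity), Real.sqrt_sq h1]
  refine mul_le_mul_of_nonneg_left (Real.sqrt_le_sqrt ?_) h1
  exact mul_le_of_le_one_left h2 (pow_le_one₀ (by norm_num) (by norm_num))

lemma norm_sum_le_kh (hk : S_kh) {p : ℝ≥0∞} (hp0 : p ≠ 0) (hpt : p ≠ ∞) (hp1 : 1 ≤ p.toReal)
    (m : ℕ) (F : Finset ℕ) (a : ℕ → ℝ) :
    ‖∑ i ∈ F, ((a i : ℝ) : 𝕜) • emb 𝕜 p (G p.toReal m i)‖ ≤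
      (2 ^ m * (4 * p.toReal ^ p.toReal) *
        ∫ t, (∑ i ∈ F, a i ^ 2 * evt m i t) ^ (p.toReal / 2) ∂mu) ^ (p.toReal⁻¹) := by
  rw [sum_emb 𝕜 F a fun i => nice_G _ m i, norm_emb 𝕜 hp0 hpt (nice_sum_G _ m F a)]
  have hx : 0 < p.toReal := by linarith
  refine Real.rpow_le_rpow (integral_nonneg fun t => Real.rpow_nonneg (abs_nonneg _) _) ?_
    (by positivity)
  have h1 : ∀ t, |∑ i ∈ F, a i * G p.toReal m i t| ^ p.toReal =
      2 ^ m * |∑ i ∈ F, a i * (rad i t * evt m i t)| ^ p.toReal := by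
    intro t
    rw [sum_G, abs_mul, abs_of_nonneg (by positivity : (0 : ℝ) ≤ 2 ^ ((m : ℝ) / p.toReal)),
      Real.mul_rpow (by positivity) (abs_nonneg _), two_rpow_mul m hx]
  simp_rw [h1]
  rw [integral_const_mul, mul_assoc]
  exact mul_le_mul_of_nonneg_left (hk p.toReal hp1 m F a) (by positivity)

lemma norm_sum_le_kh0 (hk : S_kh) {p : ℝ≥0∞} (hp0 : p ≠ 0) (hpt : p ≠ ∞) (hp1 : 1 ≤ p.toReal)
    (F : Finset ℕ) (a : ℕ → ℝ) :
    ‖∑ i ∈ F, ((a i : ℝ) : 𝕜) • emb 𝕜 p (G p.toReal 0 i)‖ ≤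
      (4 * p.toReal ^ p.toReal) ^ (p.toReal⁻¹) * √(∑ i ∈ F, a i ^ 2) := by
  refine (norm_sum_le_kh 𝕜 hk hp0 hpt hp1 0 F a).trans (le_of_eq ?_)
  simp_rw [evt_zero, mul_one]
  have h2 : 0 ≤ ∑ i ∈ F, a i ^ 2 := Finset.sum_nonneg fun _ _ => sq_nonneg _
  have hx : 0 < p.toReal := by linarith
  rw [integral_const, pow_zero, one_mul, probReal_univ, one_smul]
  rw [Real.mul_rpow (by positivity) (by positivity), Real.sqrt_eq_rpow, ← Real.rpow_mul h2]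
  congr 2
  field_simp

/-- the constant of the averaging bound -/
noncomputable def del (x : ℝ) (m : ℕ) : ℝ :=
  (2 ^ m * (4 * x ^ x)) ^ (x⁻¹) * ((1 / 2 : ℝ) ^ ((m : ℝ) * (x / 2))) ^ (x⁻¹)

lemma avg_G (hk : S_kh) (ho : S_orth) (hc : S_count) {p q : ℝ≥0∞} [Fact (1 ≤ p)] [Fact (1 ≤ q)]
    (hp0 : p ≠ 0) (hpt : p ≠ ∞)
    (hp2 : 2 ≤ p.toReal) (hq : q ≤ 2) (m : ℕ) (e : ℝ) (he : 0 < e) :
    ∃ N : ℕ, 0 < N ∧ ∀ F : Finset ℕ, F.card = N → ∀ σ : ℕ → ℝ, (∀ i, σ i = 1 ∨ σ i = -1) →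
      ‖∑ i ∈ F, ((σ i : ℝ) : 𝕜) • emb 𝕜 p (G p.toReal m i)‖ *
        ‖∑ i ∈ F, ((σ i : ℝ) : 𝕜) • emb 𝕜 q (G q.toReal 0 i)‖ ≤ N * (del p.toReal m + e) := by
  set x := p.toReal with hxdef
  have hx : 0 < x := by linarith
  have h1 : Tendsto (fun N : ℕ => (2 ^ m * (4 * x ^ x)) ^ (x⁻¹) *
      ((1 / 2 : ℝ) ^ ((m : ℝ) * (x / 2)) + x / 2 / √(N : ℝ)) ^ (x⁻¹)) atTop
      (𝓝 (del x m)) := by
    refine Tendsto.const_mul _ ?_
    have h2 : Tendsto (fun N : ℕ => (1 / 2 : ℝ) ^ ((m : ℝ) * (x / 2)) + x / 2 / √(N : ℝ)) atTop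
        (𝓝 ((1 / 2 : ℝ) ^ ((m : ℝ) * (x / 2)) + 0)) := by
      refine tendsto_const_nhds.add ?_
      refine Tendsto.div_atTop tendsto_const_nhds ?_
      exact Real.tendsto_sqrt_atTop.comp tendsto_natCast_atTop_atTop
    rw [add_zero] at h2
    exact h2.rpow_const (Or.inr (by positivity))
  have h2 : ∀ᶠ N : ℕ in atTop, (2 ^ m * (4 * x ^ x)) ^ (x⁻¹) *
      ((1 / 2 : ℝ) ^ ((m : ℝ) * (x / 2)) + x / 2 / √(N : ℝ)) ^ (x⁻¹) < del x m + e :=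
    h1.eventually_lt_const (by linarith)
  obtain ⟨N, hN, hN0⟩ := (h2.and (eventually_gt_atTop 0)).exists
  refine ⟨N, hN0, fun F hF σ hσ => ?_⟩
  have hσ2 : ∀ i, σ i ^ 2 = 1 := by
    intro i
    rcases hσ i with h | h <;> rw [h] <;> norm_num
  have hFn : F.Nonempty := by
    rw [← Finset.card_pos, hF]; exact hN0
  have hNr : (0 : ℝ) ≤ N := by positivity
  have h3 : ‖∑ i ∈ F, ((σ i : ℝ) : 𝕜) • emb 𝕜 q (G q.toReal 0 i)‖ ≤ √(N : ℝ) := by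
    refine (norm_sum_le_two 𝕜 ho hq 0 F σ).trans (le_of_eq ?_)
    simp_rw [hσ2]
    rw [Finset.sum_const, hF, nsmul_eq_mul, mul_one, Nat.cast_zero, zero_div, Real.rpow_zero,
      one_mul]
  have h4 : ‖∑ i ∈ F, ((σ i : ℝ) : 𝕜) • emb 𝕜 p (G p.toReal m i)‖ ≤
      √(N : ℝ) * ((2 ^ m * (4 * x ^ x)) ^ (x⁻¹) *
      ((1 / 2 : ℝ) ^ ((m : ℝ) * (x / 2)) + x / 2 / √(N : ℝ)) ^ (x⁻¹)) := by
    refine (norm_sum_le_kh 𝕜 hk hp0 hpt (by linarith) m F σ).trans ?_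
    rw [← hxdef]
    simp_rw [hσ2, one_mul]
    have h5 := hc (x / 2) (by linarith) m F hFn
    rw [hF] at h5
    have h6 : 0 ≤ ∫ t, (∑ i ∈ F, evt m i t) ^ (x / 2) ∂mu :=
      integral_nonneg fun t => Real.rpow_nonneg (Finset.sum_nonneg fun i _ => evt_nonneg _ _ _) _
    have h7 : (2 ^ m * (4 * x ^ x) * ∫ t, (∑ i ∈ F, evt m i t) ^ (x / 2) ∂mu) ^ (x⁻¹) ≤
        (2 ^ m * (4 * x ^ x) * ((N : ℝ) ^ (x / 2) *
          ((1 / 2 : ℝ) ^ ((m : ℝ) * (x / 2)) + x / 2 / √(N : ℝ)))) ^ (x⁻¹) := by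
      refine Real.rpow_le_rpow (by positivity) ?_ (by positivity)
      exact mul_le_mul_of_nonneg_left h5 (by positivity)
    refine h7.trans (le_of_eq ?_)
    rw [Real.mul_rpow (x := 2 ^ m * (4 * x ^ x)) (by positivity) (by positivity),
      Real.mul_rpow (x := (N : ℝ) ^ (x / 2)) (by positivity) (by positivity), ← Real.rpow_mul hNr]
    have h8 : x / 2 * x⁻¹ = 1 / 2 := by field_simp
    rw [h8, ← Real.sqrt_eq_rpow]
    ring
  calc _ ≤ (√(N : ℝ) * ((2 ^ m * (4 * x ^ x)) ^ (x⁻¹) *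
      ((1 / 2 : ℝ) ^ ((m : ℝ) * (x / 2)) + x / 2 / √(N : ℝ)) ^ (x⁻¹))) * √(N : ℝ) :=
        mul_le_mul h4 h3 (norm_nonneg _) (by positivity)
    _ = (√(N : ℝ) * √(N : ℝ)) * ((2 ^ m * (4 * x ^ x)) ^ (x⁻¹) *
      ((1 / 2 : ℝ) ^ ((m : ℝ) * (x / 2)) + x / 2 / √(N : ℝ)) ^ (x⁻¹)) := by ring
    _ ≤ N * (del x m + e) := by
      rw [Real.mul_self_sqrt hNr]
      exact mul_le_mul_of_nonneg_left hN.le hNr

lemma del_eq {x : ℝ} (hx : 0 < x) (m : ℕ) :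
    del x m = (4 * x ^ x) ^ (x⁻¹) * 2 ^ (-((m : ℝ) * (1 / 2 - 1 / x))) := by
  have h1 : (1 / 2 : ℝ) = 2 ^ (-1 : ℝ) := by rw [Real.rpow_neg_one]; norm_num
  unfold del
  rw [Real.mul_rpow (by positivity) (by positivity), h1, ← Real.rpow_mul (by norm_num),
    ← Real.rpow_mul (by norm_num), ← Real.rpow_natCast, ← Real.rpow_mul (by norm_num)]
  rw [mul_comm ((2 : ℝ) ^ ((m : ℝ) * x⁻¹)), mul_assoc, ← Real.rpow_add (by norm_num)]
  congr 2
  rw [← h1]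
  field_simp
  ring

lemma exists_exponents {x : ℝ} (hx : 2 < x) :
    ∃ M : ℕ, Tendsto (fun k : ℕ => 2 ^ k * del x (k * M)) atTop (𝓝 0) := by
  have hθ : 0 < 1 / 2 - 1 / x := by
    have : 1 / x < 1 / 2 := one_div_lt_one_div_of_lt (by norm_num) hx
    linarith
  obtain ⟨M, hM⟩ := exists_nat_ge (2 / (1 / 2 - 1 / x))
  refine ⟨M, ?_⟩
  have hM2 : 2 ≤ (M : ℝ) * (1 / 2 - 1 / x) := by
    rwa [div_le_iff₀ hθ] at hM
  set K : ℝ := (4 * x ^ x) ^ (x⁻¹) with hK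
  have hK0 : 0 ≤ K := by positivity
  have h1 : ∀ k : ℕ, 2 ^ k * del x (k * M) ≤ K * (1 / 2) ^ k := by
    intro k
    rw [del_eq (by linarith)]
    have h2 : (2 : ℝ) ^ (-(((k * M : ℕ) : ℝ) * (1 / 2 - 1 / x))) ≤ (1 / 2) ^ k * (1 / 2) ^ k := by
      have h3 : ((1 : ℝ) / 2) ^ k * (1 / 2) ^ k = 2 ^ (-(2 * (k : ℝ))) := by
        rw [← pow_add, ← two_mul, Real.rpow_neg (by norm_num)]
        have h4 : (2 : ℝ) ^ (2 * (k : ℝ)) = 2 ^ (2 * k) := by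
          rw [← Real.rpow_natCast]; push_cast; rfl
        rw [h4, one_div, inv_pow]
      rw [h3]
      refine Real.rpow_le_rpow_of_exponent_le (by norm_num) ?_
      push_cast
      have h5 : (0 : ℝ) ≤ k := by positivity
      nlinarith
    calc 2 ^ k * (K * 2 ^ (-(((k * M : ℕ) : ℝ) * (1 / 2 - 1 / x))))
        ≤ 2 ^ k * (K * ((1 / 2) ^ k * (1 / 2) ^ k)) := by gcongr
      _ = K * (1 / 2) ^ k * (2 ^ k * (1 / 2) ^ k) := by ring
      _ = K * (1 / 2) ^ k := by rw [two_half, mul_one]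
  have h2 : Tendsto (fun k : ℕ => K * (1 / 2 : ℝ) ^ k) atTop (𝓝 (K * 0)) :=
    (tendsto_pow_atTop_nhds_zero_of_lt_one (by norm_num) (by norm_num)).const_mul K
  rw [mul_zero] at h2
  refine squeeze_zero (fun k => ?_) h1 h2
  unfold del
  have : 0 < x := by linarith
  positivity

lemma norm_emb_G_le (hm : S_meas) (p : ℝ≥0∞) [Fact (1 ≤ p)] (hpt : p ≠ ∞) (m n : ℕ) :
    ‖emb 𝕜 p (G p.toReal m n)‖ ≤ 1 := by
  have h1 : (1 : ℝ≥0∞) ≤ p := Fact.out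
  have h0 : p ≠ 0 := fun h => by rw [h] at h1; exact absurd h1 (by norm_num)
  have hx : 0 < p.toReal := ENNReal.toReal_pos h0 hpt
  rw [norm_emb 𝕜 h0 hpt (nice_G _ m n), integral_G_rpow hm hx, Real.one_rpow]

/-- The bounded sequence of the normalised functions. -/
noncomputable def seqG (hm : S_meas) (p : ℝ≥0∞) [Fact (1 ≤ p)] (hpt : p ≠ ∞) (m : ℕ) :
    BoundedContinuousFunction ℕ (Lp 𝕜 p mu) :=
  BoundedContinuousFunction.ofNormedAddCommGroupDiscrete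
    (fun n => emb 𝕜 p (G p.toReal m n)) 1 (fun n => norm_emb_G_le 𝕜 hm p hpt m n)

lemma norm_seqG_le (hm : S_meas) (p : ℝ≥0∞) [Fact (1 ≤ p)] (hpt : p ≠ ∞) (m : ℕ) :
    ‖seqG 𝕜 hm p hpt m‖ ≤ 1 :=
  (BoundedContinuousFunction.norm_le zero_le_one).2 fun n => norm_emb_G_le 𝕜 hm p hpt m n

lemma upper_low (ho : S_orth) {p : ℝ≥0∞} [Fact (1 ≤ p)] (hp : p ≤ 2) (m : ℕ) :
    Upper2 𝕜 (2 * 2 ^ ((m : ℝ) / p.toReal)) fun n => emb 𝕜 p (G p.toReal m n) :=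
  upper2_of_real (by positivity) fun F a => norm_sum_le_two 𝕜 ho hp m F a

lemma upper_high (hk : S_kh) {p : ℝ≥0∞} [Fact (1 ≤ p)] (hp0 : p ≠ 0) (hpt : p ≠ ∞)
    (hp1 : 1 ≤ p.toReal) :
    Upper2 𝕜 (2 * (4 * p.toReal ^ p.toReal) ^ (p.toReal⁻¹)) fun n =>
      emb 𝕜 p (G p.toReal 0 n) :=
  upper2_of_real (by positivity) fun F a => norm_sum_le_kh0 𝕜 hk hp0 hpt hp1 F a

lemma sum_pair {p q : ℝ≥0∞} [Fact (1 ≤ p)] [Fact (1 ≤ q)] [ENNReal.HolderConjugate q p]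
    (F : Finset ℕ) (σ : ℕ → ℝ) (h : ℕ → Lp 𝕜 q mu) :
    ‖∑ i ∈ F, ((σ i : ℝ) : 𝕜) • pair 𝕜 p q (h i)‖ ≤ ‖∑ i ∈ F, ((σ i : ℝ) : 𝕜) • h i‖ := by
  have h1 : ∑ i ∈ F, ((σ i : ℝ) : 𝕜) • pair 𝕜 p q (h i) =
      pair 𝕜 p q (∑ i ∈ F, ((σ i : ℝ) : 𝕜) • h i) := by
    rw [map_sum]
    exact Finset.sum_congr rfl fun i _ => by rw [map_smul]
  rw [h1]
  exact norm_pair_le 𝕜 _

theorem main_of (hk : S_kh) (ho : S_orth) (hm : S_meas) (hc : S_count) (p : ℝ≥0∞)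
    [Fact (1 ≤ p)] (hp1 : 1 < p) (hpt : p < ∞) (hp2 : p ≠ 2) {U : Ultrafilter ℕ}
    (hU : Selective U) (hn : Nonprincipal U) :
    ∃ S ∈ opClosure 𝕜 (Lp 𝕜 p mu) U, ∀ r, S ∉ opClosureBdd 𝕜 (Lp 𝕜 p mu) U r := by
  have hpt' : p ≠ ∞ := hpt.ne
  have hp0 : p ≠ 0 := (zero_lt_one.trans hp1).ne'
  -- the conjugate exponent
  let q : ℝ≥0∞ := ENNReal.conjExponent p
  have hpq : ENNReal.HolderConjugate p q := ENNReal.HolderConjugate.conjExponent hp1.le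
  have hqp : ENNReal.HolderConjugate q p := hpq.symm
  have hq1 : Fact (1 ≤ q) := ⟨ENNReal.HolderConjugate.one_le q p⟩
  have hx1 : 1 < p.toReal := by
    rw [← ENNReal.toReal_one]
    exact (ENNReal.toReal_lt_toReal (by norm_num) hpt').2 hp1
  have hR : p.toReal.HolderConjugate q.toReal := ENNReal.HolderConjugate.toReal hx1
  have hy1 : 1 < q.toReal := hR.symm.lt
  have hqt : q ≠ ∞ := fun h => by
    rw [h, ENNReal.toReal_top] at hy1
    norm_num at hy1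
  have hq0 : q ≠ 0 := fun h => by
    rw [h, ENNReal.toReal_zero] at hy1
    norm_num at hy1
  have hxy : 1 / p.toReal + 1 / q.toReal = 1 := by
    rw [one_div, one_div]; exact hR.inv_add_inv_eq_one
  have hval : ∀ m m' n, pair 𝕜 p q (emb 𝕜 q (G q.toReal m n)) (emb 𝕜 p (G p.toReal m' n)) =
      ((∫ t, G q.toReal m n t * G p.toReal m' n t ∂mu : ℝ) : 𝕜) := fun m m' n =>
    pair_emb 𝕜 (nice_G _ m' n) (nice_G _ m n)
  rcases lt_or_gt_of_ne hp2 with h | h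
  · -- `p < 2`
    have hx2 : p.toReal < 2 := by
      rw [← ENNReal.toReal_ofNat]
      exact (ENNReal.toReal_lt_toReal hpt' (by norm_num)).2 h
    have hy2 : 2 < q.toReal := by
      have h1 : 1 / 2 < 1 / p.toReal := one_div_lt_one_div_of_lt (by linarith) hx2
      have h2 : 1 / q.toReal < 1 / 2 := by linarith
      exact (one_div_lt_one_div (by linarith) (by norm_num)).1 h2
    obtain ⟨M, hM⟩ := exists_exponents hy2
    refine criterion hU hn (fun k => seqG 𝕜 hm p hpt' (k * M)) (fun _ => seqG 𝕜 hm p hpt' 0)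
      (fun _ n => pair 𝕜 p q (emb 𝕜 q (G q.toReal 0 n)))
      (fun k n => pair 𝕜 p q (emb 𝕜 q (G q.toReal (k * M) n)))
      (fun k => norm_seqG_le 𝕜 hm p hpt' _)
      (fun k n => (norm_pair_le 𝕜 _).trans (norm_emb_G_le 𝕜 hm q hqt _ _))
      (fun k n => (norm_pair_le 𝕜 _).trans (norm_emb_G_le 𝕜 hm q hqt _ _))
      (fun k => 2 * 2 ^ (((k * M : ℕ) : ℝ) / p.toReal))
      (fun _ => 2 * (4 * q.toReal ^ q.toReal) ^ (q.toReal⁻¹))
      (fun k => by positivity) (fun k => by positivity)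
      (fun k => upper_low 𝕜 ho h.le _)
      (fun k => bessel_of_upper2 (by positivity)
        ((upper_high 𝕜 hk hq0 hqt hy1.le).map (pair 𝕜 p q) (norm_pair_le 𝕜)))
      (fun _ _ n => ∫ t, G q.toReal 0 n t * G p.toReal 0 n t ∂mu)
      (fun j k n => ∫ t, G q.toReal (k * M) n t * G p.toReal (j * M) n t ∂mu)
      (fun j k n => hval _ _ _) (fun j k n => integral_G_mul_nonneg _ _ _ _ _)
      (fun k n => integral_G_mul_self hm hxy _ _)
      (fun j k n => hval _ _ _) (fun j k n => integral_G_mul_nonneg _ _ _ _ _)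
      (fun k n => integral_G_mul_self hm hxy _ _)
      (fun k => del q.toReal (k * M)) ?_ hM
    intro k e he
    obtain ⟨N, hN, hNF⟩ := avg_G 𝕜 hk ho hc hq0 hqt hy2.le h.le (k * M) e he
    refine ⟨N, hN, fun F hF σ hσ => ?_⟩
    refine le_trans ?_ (hNF F hF σ hσ)
    rw [mul_comm]
    exact mul_le_mul_of_nonneg_right (sum_pair 𝕜 F σ _) (norm_nonneg _)
  · -- `p > 2`
    have hx2 : 2 < p.toReal := by
      rw [← ENNReal.toReal_ofNat]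
      exact (ENNReal.toReal_lt_toReal (by norm_num) hpt').2 h
    have hy2 : q.toReal < 2 := by
      have h1 : 1 / p.toReal < 1 / 2 := one_div_lt_one_div_of_lt (by norm_num) hx2
      have h2 : 1 / 2 < 1 / q.toReal := by linarith
      exact (one_div_lt_one_div (by norm_num) (by linarith)).1 h2
    have hq2 : q ≤ 2 := by
      rw [← ENNReal.ofReal_toReal hqt, ← ENNReal.ofReal_ofNat]
      exact ENNReal.ofReal_le_ofReal hy2.le
    obtain ⟨M, hM⟩ := exists_exponents hx2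
    refine criterion hU hn (fun _ => seqG 𝕜 hm p hpt' 0) (fun k => seqG 𝕜 hm p hpt' (k * M))
      (fun k n => pair 𝕜 p q (emb 𝕜 q (G q.toReal (k * M) n)))
      (fun _ n => pair 𝕜 p q (emb 𝕜 q (G q.toReal 0 n)))
      (fun k => norm_seqG_le 𝕜 hm p hpt' _)
      (fun k n => (norm_pair_le 𝕜 _).trans (norm_emb_G_le 𝕜 hm q hqt _ _))
      (fun k n => (norm_pair_le 𝕜 _).trans (norm_emb_G_le 𝕜 hm q hqt _ _))
      (fun _ => 2 * (4 * p.toReal ^ p.toReal) ^ (p.toReal⁻¹))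
      (fun k => 2 * 2 ^ (((k * M : ℕ) : ℝ) / q.toReal))
      (fun k => by positivity) (fun k => by positivity)
      (fun k => upper_high 𝕜 hk hp0 hpt' hx1.le)
      (fun k => bessel_of_upper2 (by positivity)
        ((upper_low 𝕜 ho hq2 _).map (pair 𝕜 p q) (norm_pair_le 𝕜)))
      (fun j k n => ∫ t, G q.toReal (j * M) n t * G p.toReal (k * M) n t ∂mu)
      (fun _ _ n => ∫ t, G q.toReal 0 n t * G p.toReal 0 n t ∂mu)
      (fun j k n => hval _ _ _) (fun j k n => integral_G_mul_nonneg _ _ _ _ _)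
      (fun k n => integral_G_mul_self hm hxy _ _)
      (fun j k n => hval _ _ _) (fun j k n => integral_G_mul_nonneg _ _ _ _ _)
      (fun k n => integral_G_mul_self hm hxy _ _)
      (fun k => del p.toReal (k * M)) ?_ hM
    intro k e he
    obtain ⟨N, hN, hNF⟩ := avg_G 𝕜 hk ho hc hp0 hpt' hx2.le hq2 (k * M) e he
    refine ⟨N, hN, fun F hF σ hσ => ?_⟩
    refine le_trans ?_ (hNF F hF σ hσ)
    exact mul_le_mul_of_nonneg_left (sum_pair 𝕜 F σ _) (norm_nonneg _)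

end

end Pool.Agent.K1H32.WU
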