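import Pool.Agent.K1H32.WU.Ultra

/-! Limits of bounded sequences of functionals on an ultrapower, and two lemmas on closures. -/

set_option autoImplicit false

open Filter Topology

namespace Pool.Agent.K1H32.WU

variable {𝕜 : Type*} [RCLike 𝕜] {E : Type*} [NormedAddCommGroup E] [NormedSpace 𝕜 E]

lemma exists_limFun (U : Ultrafilter ℕ) (w : ℕ → StrongDual 𝕜 E) (R : ℝ) (hw : ∀ n, ‖w n‖ ≤ R) :
    ∃ φ : StrongDual 𝕜 (Ultrapower 𝕜 E U), ‖φ‖ ≤ R ∧ ∀ x : BoundedContinuousFunction ℕ E,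
      Tendsto (fun n => w n (x n)) (U : Filter ℕ) (𝓝 (φ (cls U x))) := by
  have hR : 0 ≤ R := (norm_nonneg _).trans (hw 0)
  have h1 : ∀ x : BoundedContinuousFunction ℕ E, ∃ l,
      Tendsto (fun n => w n (x n)) (U : Filter ℕ) (𝓝 l) := by
    intro x
    refine exists_lim U _ 0 (R * ‖x‖) fun n => ?_
    rw [dist_zero_right]
    refine ((w n).le_opNorm _).trans ?_
    exact mul_le_mul (hw n) (x.norm_coe_le_norm n) (norm_nonneg _) hR
  choose L hL using h1
  have hadd : ∀ x y, L (x + y) = L x + L y := by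
    intro x y
    refine tendsto_nhds_unique (hL (x + y)) ?_
    refine ((hL x).add (hL y)).congr fun n => ?_
    simp
  have hsmul : ∀ (c : 𝕜) x, L (c • x) = c • L x := by
    intro c x
    refine tendsto_nhds_unique (hL (c • x)) ?_
    refine ((hL x).const_smul c).congr fun n => ?_
    simp
  let L0 : BoundedContinuousFunction ℕ E →ₗ[𝕜] 𝕜 :=
    { toFun := L, map_add' := hadd, map_smul' := hsmul }
  have hker : nullSub 𝕜 E U ≤ LinearMap.ker L0 := by
    intro x hx
    rw [LinearMap.mem_ker]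
    have h2 := ((mem_nullSub 𝕜).1 hx).const_mul R
    rw [mul_zero] at h2
    refine tendsto_nhds_unique (hL x) ?_
    refine squeeze_zero_norm (fun n => ?_) h2
    exact ((w n).le_opNorm _).trans (mul_le_mul_of_nonneg_right (hw n) (norm_nonneg _))
  have hb : ∀ ξ : Ultrapower 𝕜 E U, ‖(nullSub 𝕜 E U).liftQ L0 hker ξ‖ ≤ R * ‖ξ‖ := by
    intro ξ
    induction ξ using Submodule.Quotient.induction_on with
    | H x =>
      rw [Submodule.liftQ_apply]
      have h2 := (tendsto_norm_cls (𝕜 := 𝕜) U x).const_mul R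
      refine le_of_tendsto_of_tendsto' (hL x).norm h2 fun n => ?_
      exact ((w n).le_opNorm _).trans (mul_le_mul_of_nonneg_right (hw n) (norm_nonneg _))
  refine ⟨LinearMap.mkContinuous ((nullSub 𝕜 E U).liftQ L0 hker) R hb, ?_, ?_⟩
  · exact LinearMap.mkContinuous_norm_le _ hR _
  · intro x
    exact hL x

/-- If `S` is a pointwise limit of ultrapower operators then it is in the closure. -/
lemma mem_opClosure_of {U : Ultrafilter ℕ} (S : Ultrapower 𝕜 E U →L[𝕜] Ultrapower 𝕜 E U)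
    (h : ∀ (F : Finset (Ultrapower 𝕜 E U)) (e : ℝ), 0 < e →
      ∃ T : E →L[𝕜] E, ∀ ξ ∈ F, ‖upOp U T ξ - S ξ‖ ≤ e) : S ∈ opClosure 𝕜 E U := by
  classical
  have h1 : ∀ q : Finset (Ultrapower 𝕜 E U) × ℕ, ∃ T : E →L[𝕜] E,
      ∀ ξ ∈ q.1, ‖upOp U T ξ - S ξ‖ ≤ 1 / ((q.2 : ℝ) + 1) := fun q =>
    h q.1 _ (by positivity)
  choose T hT using h1
  change ContinuousLinearMapWOT.ofCLM S ∈ closure _
  have h2 : Tendsto (fun q => ContinuousLinearMapWOT.ofCLM (upOp U (T q)))
      (atTop : Filter (Finset (Ultrapower 𝕜 E U) × ℕ)) (𝓝 (ContinuousLinearMapWOT.ofCLM S)) := by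
    rw [ContinuousLinearMapWOT.tendsto_iff_forall_dual_apply_tendsto]
    intro ξ y
    refine (y.continuous.tendsto _).comp ?_
    rw [tendsto_iff_norm_sub_tendsto_zero]
    have h3 : Tendsto (fun q : Finset (Ultrapower 𝕜 E U) × ℕ => 1 / ((q.2 : ℝ) + 1)) atTop
        (𝓝 0) := by
      have h4 : Tendsto (fun q : Finset (Ultrapower 𝕜 E U) × ℕ => q.2) atTop atTop := by
        rw [← prod_atTop_atTop_eq]
        exact tendsto_snd
      exact tendsto_one_div_add_atTop_nhds_zero_nat.comp h4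
    refine squeeze_zero' (Eventually.of_forall fun q => norm_nonneg _) ?_ h3
    filter_upwards [eventually_ge_atTop (({ξ} : Finset (Ultrapower 𝕜 E U)), 0)] with q hq
    exact hT q ξ (hq.1 (Finset.mem_singleton_self ξ))
  exact mem_closure_of_tendsto h2 (Eventually.of_forall fun q => ⟨T q, rfl⟩)

/-- Elements of the bounded closure are approximated at one vector and one functional. -/
lemma exists_of_mem_opClosureBdd {U : Ultrafilter ℕ} {r : ℝ}
    {S : Ultrapower 𝕜 E U →L[𝕜] Ultrapower 𝕜 E U} (h : S ∈ opClosureBdd 𝕜 E U r)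
    (ξ : Ultrapower 𝕜 E U) (φ : StrongDual 𝕜 (Ultrapower 𝕜 E U)) {e : ℝ} (he : 0 < e) :
    ∃ T : E →L[𝕜] E, ‖T‖ ≤ r ∧ ‖φ (upOp U T ξ) - φ (S ξ)‖ < e := by
  have h1 := mem_closure_iff.1 h {R | φ (R ξ) ∈ Metric.ball (φ (S ξ)) e}
    (Metric.isOpen_ball.preimage (ContinuousLinearMapWOT.continuous_dual_apply ξ φ))
    (Metric.mem_ball_self he)
  obtain ⟨R, hR, T, hT, rfl⟩ := h1
  refine ⟨T, hT, ?_⟩
  have h2 : φ (upOp U T ξ) ∈ Metric.ball (φ (S ξ)) e := hR
  rwa [mem_ball_iff_norm] at h2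

end Pool.Agent.K1H32.WU
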