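import Pool.Agent.K1H32.WU.Ultra

/-! Diagonalisation in a selective ultrafilter. -/

set_option autoImplicit false

open Filter Topology

namespace Pool.Agent.K1H32.WU

lemma selective_fun {U : Ultrafilter ℕ} (hU : Selective U) (f : ℕ → ℕ)
    (hf : ∀ m, {n | f n = m} ∉ U) : ∃ A ∈ U, ∀ m ∈ A, ∀ n ∈ A, f m = f n → m = n :=
  hU (Setoid.ker f) fun m => hf (f m)

lemma finite_notMem {U : Ultrafilter ℕ} (hU : Nonprincipal U) {s : Set ℕ} (hs : s.Finite) :
    s ∉ U := by
  intro h
  have h1 : (⋃ n ∈ s, ({n} : Set ℕ)) ∈ U := by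
    have : (⋃ n ∈ s, ({n} : Set ℕ)) = s := by ext; simp
    rwa [this]
  rw [Ultrafilter.finite_biUnion_mem_iff hs] at h1
  obtain ⟨n, _, hn⟩ := h1
  exact hU n hn

/-- Every family `A 0, A 1, …` of sets of a selective ultrafilter has a diagonal intersection: a
set `A` of the ultrafilter with `n ∈ A m` for all `m < n` in `A`. -/
lemma diagonal {U : Ultrafilter ℕ} (hU : Selective U) (hn : Nonprincipal U) (A : ℕ → Set ℕ)
    (hA : ∀ m, A m ∈ U) : ∃ B ∈ U, ∀ m ∈ B, ∀ n ∈ B, m < n → n ∈ A m := by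
  classical
  -- decreasing sets
  let D : ℕ → Set ℕ := fun m => {n | m < n ∧ ∀ j ≤ m, n ∈ A j}
  have hD : ∀ m, D m ∈ U := by
    intro m
    have h1 : {n : ℕ | m < n} ∈ U := by
      have h2 : {n : ℕ | m < n}ᶜ ∉ U := finite_notMem hn (by
        apply (Set.finite_Iic m).subset
        intro n hn
        simpa using hn)
      exact Ultrafilter.compl_notMem_iff.1 h2
    have h2 : (⋂ j ∈ Set.Iic m, A j) ∈ U :=
      (biInter_mem (Set.finite_Iic m)).2 fun j _ => hA j
    filter_upwards [h1, h2] with n h3 h4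
    refine ⟨h3, fun j hj => ?_⟩
    have := Set.mem_iInter₂.1 h4 j hj
    exact this
  have hDm : ∀ n m m', m' ≤ m → n ∈ D m → n ∈ D m' := by
    rintro n m m' h ⟨h1, h2⟩
    exact ⟨lt_of_le_of_lt h h1, fun j hj => h2 j (hj.trans h)⟩
  -- number of sets that contain `n`
  let f : ℕ → ℕ := fun n => ((Finset.range n).filter fun m => n ∈ D m).card
  have hf : ∀ n m, n ∈ D m → m < f n := by
    intro n m h
    have h1 : Finset.range (m + 1) ⊆ (Finset.range n).filter fun m => n ∈ D m := by
      intro k hk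
      rw [Finset.mem_range] at hk
      rw [Finset.mem_filter, Finset.mem_range]
      have h2 := h.1
      exact ⟨by omega, hDm n m k (by omega) h⟩
    have h3 := Finset.card_le_card h1
    rw [Finset.card_range] at h3
    exact h3
  have hf2 : ∀ n m, n ∉ D m → f n ≤ m := by
    intro n m h
    have h1 : ((Finset.range n).filter fun m => n ∈ D m) ⊆ Finset.range m := by
      intro k hk
      rw [Finset.mem_filter] at hk
      rw [Finset.mem_range]
      by_contra h2
      exact h (hDm n k m (by omega) hk.2)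
    have h3 := Finset.card_le_card h1
    rwa [Finset.card_range] at h3
  obtain ⟨B, hB, hBinj⟩ := selective_fun hU f (by
    intro m hm
    obtain ⟨n, hn1, hn2⟩ := (U.nonempty_of_mem (inter_mem hm (hD m)))
    have h1 : f n = m := hn1
    have h2 := hf n m hn2
    omega)
  -- `B` is almost contained in each `D m`
  have hfin : ∀ m, (B \ D m).Finite := by
    intro m
    apply Set.Finite.of_finite_image (f := f)
    · apply (Set.finite_Iic m).subset
      rintro _ ⟨n, hn, rfl⟩
      exact hf2 n m hn.2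
    · intro a ha b hb hab
      exact hBinj a ha.1 b hb.1 hab
  have hg : ∀ m, ∃ g, ∀ n ∈ B, g ≤ n → n ∈ D m := by
    intro m
    obtain ⟨g, hg⟩ := (hfin m).bddAbove
    refine ⟨g + 1, fun n hn h => ?_⟩
    by_contra h2
    have := hg (show n ∈ B \ D m from ⟨hn, h2⟩)
    omega
  choose g hg using hg
  -- a fast sequence
  let k : ℕ → ℕ := fun i => Nat.rec 0 (fun _ x => x + 1 + ∑ m ∈ Finset.range (x + 1), g m) i
  have hk0 : k 0 = 0 := rfl
  have hks : ∀ i, k (i + 1) = k i + 1 + ∑ m ∈ Finset.range (k i + 1), g m := fun i => rfl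
  have hkm : StrictMono k := strictMono_nat_of_lt_succ fun i => by rw [hks]; omega
  have hkg : ∀ i m n, m ≤ k i → k (i + 1) ≤ n → n ∈ B → n ∈ D m := by
    intro i m n hm hn hnB
    apply hg m n hnB
    have h1 : g m ≤ ∑ m ∈ Finset.range (k i + 1), g m :=
      Finset.single_le_sum (f := g) (fun _ _ => Nat.zero_le _) (Finset.mem_range.2 (by omega))
    rw [hks] at hn
    omega
  -- the block of a number
  have hblock : ∀ n, ∃ i, k i ≤ n ∧ n < k (i + 1) := by
    intro n
    have h1 : ∃ i, n < k (i + 1) := ⟨n, lt_of_lt_of_le (Nat.lt_succ_self n) (hkm.le_apply)⟩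
    refine ⟨Nat.find h1, ?_, Nat.find_spec h1⟩
    rcases Nat.eq_zero_or_pos (Nat.find h1) with h2 | h2
    · rw [h2, hk0]; exact Nat.zero_le _
    · have h3 := Nat.find_min h1 (m := Nat.find h1 - 1) (by omega)
      rw [not_lt] at h3
      have h4 : Nat.find h1 - 1 + 1 = Nat.find h1 := by omega
      rwa [h4] at h3
  choose b hb1 hb2 using hblock
  obtain ⟨C, hC, hCinj⟩ := selective_fun hU b (by
    intro m
    apply finite_notMem hn
    apply (Set.finite_Iio (k (m + 1))).subset
    intro n hn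
    have h1 : b n = m := hn
    rw [← h1]
    exact hb2 n)
  -- parity
  have hpar : {n | b n % 2 = 0} ∈ U ∨ {n | b n % 2 = 1} ∈ U := by
    have h1 : ({n | b n % 2 = 0} ∪ {n | b n % 2 = 1}) ∈ U := by
      have : ({n | b n % 2 = 0} ∪ {n | b n % 2 = 1}) = Set.univ := by
        ext n
        simp only [Set.mem_union, Set.mem_ofPred_eq, Set.mem_univ, iff_true]
        omega
      rw [this]
      exact univ_mem
    exact Ultrafilter.union_mem_iff.1 h1
  have hmono : ∀ m n, m < n → b m ≤ b n := by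
    intro m n hmn
    by_contra h
    rw [not_le] at h
    have h1 := hb1 m
    have h2 := hb2 n
    have h3 : k (b n + 1) ≤ k (b m) := hkm.monotone (show b n + 1 ≤ b m by omega)
    omega
  obtain ⟨r, hr⟩ : ∃ r, {n | b n % 2 = r} ∈ U := by
    rcases hpar with h | h
    · exact ⟨0, h⟩
    · exact ⟨1, h⟩
  refine ⟨B ∩ C ∩ {n | b n % 2 = r}, inter_mem (inter_mem hB hC) hr, ?_⟩
  rintro m ⟨⟨hmB, hmC⟩, hmr⟩ n ⟨⟨hnB, hnC⟩, hnr⟩ hmn
  have h1 : b m ≤ b n := hmono m n hmn
  have h2 : b m ≠ b n := fun h => by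
    have := hCinj m hmC n hnC h
    omega
  have h3 : b m % 2 = r := hmr
  have h4 : b n % 2 = r := hnr
  have h5 : b m + 2 ≤ b n := by omega
  have h6 : n ∈ D m := by
    apply hkg (b m + 1) m n _ _ hnB
    · exact (hb2 m).le
    · exact (hkm.monotone (show b m + 1 + 1 ≤ b n by omega)).trans (hb1 n)
  exact h6.2 m le_rfl

end Pool.Agent.K1H32.WU
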