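import Pool.Agent.K1H32.WU.LimF
import Pool.Agent.K1H32.WU.Sel

/-! Rank one operators on the ultrapower as limits of ultrapower operators of diagonal sums. -/

set_option autoImplicit false

open Filter Topology

namespace Pool.Agent.K1H32.WU

variable {𝕜 : Type*} [RCLike 𝕜] {E : Type*} [NormedAddCommGroup E] [NormedSpace 𝕜 E]

/-- An upper `2`-estimate. -/
def Upper2 (𝕜 : Type*) [RCLike 𝕜] {E : Type*} [NormedAddCommGroup E] [NormedSpace 𝕜 E]
    (C : ℝ) (v : ℕ → E) : Prop :=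
  ∀ (F : Finset ℕ) (a : ℕ → 𝕜), ‖∑ i ∈ F, a i • v i‖ ≤ C * √(∑ i ∈ F, ‖a i‖ ^ 2)

/-- A Bessel inequality. -/
def Bessel (B : ℝ) (w : ℕ → StrongDual 𝕜 E) : Prop :=
  ∀ (F : Finset ℕ) (f : E), ∑ i ∈ F, ‖w i f‖ ^ 2 ≤ (B * ‖f‖) ^ 2

lemma Upper2.summable [CompleteSpace E] {C : ℝ} {v : ℕ → E} (hv : Upper2 𝕜 C v) (hC : 0 ≤ C)
    {a : ℕ → 𝕜} (ha : Summable fun n => ‖a n‖ ^ 2) : Summable fun n => a n • v n := by
  rw [summable_iff_vanishing_norm]
  intro e he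
  rw [summable_iff_vanishing_norm] at ha
  obtain ⟨s, hs⟩ := ha ((e / (C + 1)) ^ 2) (by positivity)
  refine ⟨s, fun t ht => ?_⟩
  have h1 := hs t ht
  rw [Real.norm_eq_abs, abs_of_nonneg (Finset.sum_nonneg fun _ _ => by positivity)] at h1
  have h2 : √(∑ i ∈ t, ‖a i‖ ^ 2) < e / (C + 1) := by
    rw [Real.sqrt_lt' (by positivity)]
    exact h1
  calc ‖∑ i ∈ t, a i • v i‖ ≤ C * √(∑ i ∈ t, ‖a i‖ ^ 2) := hv t a
    _ ≤ C * (e / (C + 1)) := mul_le_mul_of_nonneg_left h2.le hC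
    _ < e := by
      rw [mul_div_assoc', div_lt_iff₀ (by positivity)]
      nlinarith

lemma Upper2.norm_tsum_le [CompleteSpace E] {C : ℝ} {v : ℕ → E} (hv : Upper2 𝕜 C v) (hC : 0 ≤ C)
    {a : ℕ → 𝕜} {M : ℝ} (hM : 0 ≤ M) (ha : ∀ F : Finset ℕ, ∑ i ∈ F, ‖a i‖ ^ 2 ≤ M ^ 2) {y : E}
    (hy : HasSum (fun n => a n • v n) y) : ‖y‖ ≤ C * M := by
  refine le_of_tendsto' hy.norm fun F => ?_
  refine (hv F a).trans (mul_le_mul_of_nonneg_left ?_ hC)
  exact (Real.sqrt_le_sqrt (ha F)).trans (Real.sqrt_sq hM).le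

lemma summable_of_bound {a : ℕ → 𝕜} {M : ℝ} (ha : ∀ F : Finset ℕ, ∑ i ∈ F, ‖a i‖ ^ 2 ≤ M) :
    Summable fun n => ‖a n‖ ^ 2 :=
  summable_of_sum_le (fun _ => by positivity) ha

open Classical in
/-- The operator `f ↦ ∑ n ∈ A, w n f • v n`. -/
lemma exists_op [CompleteSpace E] {B C : ℝ} (hC : 0 ≤ C) (hB : 0 ≤ B) {v : ℕ → E}
    {w : ℕ → StrongDual 𝕜 E} (hv : Upper2 𝕜 C v) (hw : Bessel B w) (A : Set ℕ) :
    ∃ T : E →L[𝕜] E, ∀ f, HasSum (fun n => (if n ∈ A then w n f else 0) • v n) (T f) := by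
  have h0 : ∀ f : E, ∀ F : Finset ℕ, ∑ n ∈ F, ‖if n ∈ A then w n f else 0‖ ^ 2 ≤
      (B * ‖f‖) ^ 2 := by
    intro f F
    refine le_trans (Finset.sum_le_sum fun n _ => ?_) (hw F f)
    split_ifs
    · exact le_rfl
    · rw [norm_zero, zero_pow two_ne_zero]; positivity
  have h1 : ∀ f : E, Summable fun n => (if n ∈ A then w n f else 0) • v n := fun f =>
    hv.summable hC (summable_of_bound (h0 f))
  have h2 : ∀ f, HasSum (fun n => (if n ∈ A then w n f else 0) • v n)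
      (∑' n, (if n ∈ A then w n f else 0) • v n) := fun f => (h1 f).hasSum
  let T0 : E →ₗ[𝕜] E :=
    { toFun := fun f => ∑' n, (if n ∈ A then w n f else 0) • v n
      map_add' := by
        intro f g
        refine (h2 (f + g)).unique ?_
        convert (h2 f).add (h2 g) using 1
        funext n
        split_ifs
        · rw [map_add, add_smul]
        · simp
      map_smul' := by
        intro c f
        refine (h2 (c • f)).unique ?_
        rw [RingHom.id_apply]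
        convert (h2 f).const_smul c using 1
        funext n
        split_ifs
        · rw [map_smul, smul_assoc]
        · simp }
  refine ⟨LinearMap.mkContinuous T0 (C * B) fun f => ?_, h2⟩
  have h3 := hv.norm_tsum_le hC (by positivity) (h0 f) (h2 f)
  rw [mul_assoc]
  exact h3

/-- uniform smallness of tails of a square summable sequence -/
lemma exists_tail {a : ℕ → 𝕜} {M e : ℝ} (he : 0 < e)
    (ha : ∀ F : Finset ℕ, ∑ i ∈ F, ‖a i‖ ^ 2 ≤ M) :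
    ∃ N, ∀ F : Finset ℕ, (∀ i ∈ F, N ≤ i) → ∑ i ∈ F, ‖a i‖ ^ 2 ≤ e := by
  obtain ⟨s, hs⟩ := summable_iff_vanishing_norm.1 (summable_of_bound ha) e he
  refine ⟨s.sup id + 1, fun F hF => ?_⟩
  have h1 : Disjoint F s := by
    rw [Finset.disjoint_left]
    intro i hi hi2
    have h2 := hF i hi
    have h3 : i ≤ s.sup id := Finset.le_sup (f := id) hi2
    omega
  have h2 := hs F h1
  rw [Real.norm_eq_abs, abs_of_nonneg (Finset.sum_nonneg fun _ _ => by positivity)] at h2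
  exact h2.le

lemma sum_quarter_le (F : Finset ℕ) : ∑ m ∈ F, ((1 / 2 : ℝ) ^ m) ^ 2 ≤ 2 := by
  have h1 : ∀ m : ℕ, ((1 / 2 : ℝ) ^ m) ^ 2 ≤ (1 / 2) ^ m := by
    intro m
    have h2 : (1 / 2 : ℝ) ^ m ≤ 1 := pow_le_one₀ (by norm_num) (by norm_num)
    have h3 : (0 : ℝ) ≤ (1 / 2) ^ m := by positivity
    nlinarith
  calc ∑ m ∈ F, ((1 / 2 : ℝ) ^ m) ^ 2 ≤ ∑ m ∈ F, (1 / 2 : ℝ) ^ m :=
        Finset.sum_le_sum fun m _ => h1 m
    _ ≤ ∑' m : ℕ, (1 / 2 : ℝ) ^ m :=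
        summable_geometric_two.sum_le_tsum F (fun _ _ => by positivity)
    _ = 2 := tsum_geometric_two

/-- The rank one operator `ξ ↦ lim w n (x n) • (v n)` is a pointwise limit of ultrapower
operators. -/
theorem rank_one_approx [CompleteSpace E] {U : Ultrafilter ℕ} (hU : Selective U)
    (hn : Nonprincipal U) {B C : ℝ} (hC : 0 ≤ C) (hB : 0 ≤ B) {v : BoundedContinuousFunction ℕ E}
    {w : ℕ → StrongDual 𝕜 E} (hv : Upper2 𝕜 C v) (hw : Bessel B w)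
    (φ : StrongDual 𝕜 (Ultrapower 𝕜 E U))
    (hφ : ∀ x : BoundedContinuousFunction ℕ E,
      Tendsto (fun n => w n (x n)) (U : Filter ℕ) (𝓝 (φ (cls U x))))
    (F : Finset (Ultrapower 𝕜 E U)) (e : ℝ) (he : 0 < e) :
    ∃ T : E →L[𝕜] E, ∀ ξ ∈ F, ‖upOp U T ξ - φ ξ • cls U v‖ ≤ e := by
  classical
  have hrep : ∀ ξ : Ultrapower 𝕜 E U, ∃ x : BoundedContinuousFunction ℕ E, cls U x = ξ :=
    fun ξ => Submodule.Quotient.mk_surjective _ ξ
  choose x hx using hrep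
  set e1 : ℝ := e / (3 * C + 1) with he1
  have he1p : 0 < e1 := by positivity
  have he1C : C * (3 * e1) ≤ e := by
    rw [he1, show C * (3 * (e / (3 * C + 1))) = (3 * C * e) / (3 * C + 1) by ring,
      div_le_iff₀ (by positivity)]
    nlinarith
  -- limits of the coordinates
  have hlim : ∀ (ξ : Ultrapower 𝕜 E U) (m : ℕ), ∃ c : 𝕜,
      Tendsto (fun n => w m (x ξ n)) (U : Filter ℕ) (𝓝 c) := by
    intro ξ m
    refine exists_lim U _ 0 (‖w m‖ * ‖x ξ‖) fun n => ?_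
    rw [dist_zero_right]
    exact ((w m).le_opNorm _).trans
      (mul_le_mul_of_nonneg_left ((x ξ).norm_coe_le_norm n) (norm_nonneg _))
  choose c hc using hlim
  have hcsum : ∀ ξ (G : Finset ℕ), ∑ m ∈ G, ‖c ξ m‖ ^ 2 ≤ (B * ‖x ξ‖) ^ 2 := by
    intro ξ G
    have h1 : Tendsto (fun n => ∑ m ∈ G, ‖w m (x ξ n)‖ ^ 2) (U : Filter ℕ)
        (𝓝 (∑ m ∈ G, ‖c ξ m‖ ^ 2)) :=
      tendsto_finsetSum G fun m _ => ((hc ξ m).norm.pow 2)
    refine le_of_tendsto' h1 fun n => (hw G _).trans ?_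
    have h2 := (x ξ).norm_coe_le_norm n
    gcongr
  -- tails of the limits
  have hM : ∃ M0, ∀ ξ ∈ F, ∀ G : Finset ℕ, (∀ i ∈ G, M0 ≤ i) →
      ∑ m ∈ G, ‖c ξ m‖ ^ 2 ≤ e1 ^ 2 := by
    have h1 : ∀ ξ, ∃ N, ∀ G : Finset ℕ, (∀ i ∈ G, N ≤ i) → ∑ m ∈ G, ‖c ξ m‖ ^ 2 ≤ e1 ^ 2 :=
      fun ξ => exists_tail (by positivity) (hcsum ξ)
    choose N hN using h1
    refine ⟨F.sup N, fun ξ hξ G hG => hN ξ G fun i hi => ?_⟩
    exact (Finset.le_sup (f := N) hξ).trans (hG i hi)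
  obtain ⟨M0, hM0⟩ := hM
  -- tails for each vector
  have hg : ∀ n, ∃ g, ∀ ξ ∈ F, ∀ G : Finset ℕ, (∀ i ∈ G, g ≤ i) →
      ∑ m ∈ G, ‖w m (x ξ n)‖ ^ 2 ≤ e1 ^ 2 := by
    intro n
    have h1 : ∀ ξ, ∃ N, ∀ G : Finset ℕ, (∀ i ∈ G, N ≤ i) →
        ∑ m ∈ G, ‖w m (x ξ n)‖ ^ 2 ≤ e1 ^ 2 :=
      fun ξ => exists_tail (by positivity) (fun G => hw G (x ξ n))
    choose N hN using h1
    refine ⟨F.sup N, fun ξ hξ G hG => hN ξ G fun i hi => ?_⟩
    exact (Finset.le_sup (f := N) hξ).trans (hG i hi)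
  choose g hg using hg
  -- the sets for the diagonal
  have hA : ∀ m, {n | (∀ ξ ∈ F, ‖w m (x ξ n) - c ξ m‖ ≤ e1 * (1 / 2) ^ m) ∧ g m ≤ n} ∈ U := by
    intro m
    have h1 : ∀ ξ ∈ F, ∀ᶠ n in (U : Filter ℕ), ‖w m (x ξ n) - c ξ m‖ ≤ e1 * (1 / 2) ^ m := by
      intro ξ _
      have h2 := (Metric.tendsto_nhds.1 (hc ξ m)) (e1 * (1 / 2) ^ m) (by positivity)
      filter_upwards [h2] with n hn
      rw [dist_eq_norm] at hn
      exact hn.le
    have h3 : ∀ᶠ n in (U : Filter ℕ), ∀ ξ ∈ F, ‖w m (x ξ n) - c ξ m‖ ≤ e1 * (1 / 2) ^ m :=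
      (Finset.eventually_all F).2 h1
    have h4 : ∀ᶠ n in (U : Filter ℕ), g m ≤ n := by
      have h5 : {n : ℕ | g m ≤ n}ᶜ ∉ U := finite_notMem hn (by
        apply (Set.finite_Iio (g m)).subset
        intro n hn
        simpa using hn)
      exact Ultrafilter.compl_notMem_iff.1 h5
    exact h3.and h4
  obtain ⟨D, hD, hDd⟩ := diagonal hU hn _ hA
  have hE : {n : ℕ | M0 ≤ n} ∈ U := by
    have h5 : {n : ℕ | M0 ≤ n}ᶜ ∉ U := finite_notMem hn (by
      apply (Set.finite_Iio M0).subset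
      intro n hn
      simpa using hn)
    exact Ultrafilter.compl_notMem_iff.1 h5
  let A : Set ℕ := D ∩ {n : ℕ | M0 ≤ n}
  have hAU : A ∈ U := inter_mem hD hE
  obtain ⟨T, hT⟩ := exists_op hC hB hv hw A
  refine ⟨T, fun ξ hξ => ?_⟩
  -- the estimate at the indices in `A`
  have hmain : ∀ n ∈ A, ‖T (x ξ n) - w n (x ξ n) • v n‖ ≤ e := by
    intro n hnA
    have h1 : HasSum (fun m => (if m ∈ A ∧ m ≠ n then w m (x ξ n) else 0) • v m)
        (T (x ξ n) - w n (x ξ n) • v n) := by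
      have h2 : HasSum (fun m => if m = n then w n (x ξ n) • v n else 0)
          (w n (x ξ n) • v n) := hasSum_ite_eq n _
      refine ((hT (x ξ n)).sub h2).congr_fun ?_
      intro m
      by_cases hm : m = n
      · subst hm
        simp [hnA]
      · simp [hm]
    refine (hv.norm_tsum_le hC (by positivity : (0 : ℝ) ≤ 3 * e1) ?_ h1).trans he1C
    intro G
    -- split into small and large indices
    have h2 : ∀ m ∈ G, ‖if m ∈ A ∧ m ≠ n then w m (x ξ n) else 0‖ ^ 2 ≤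
        (if m ∈ A ∧ m < n then 2 * ‖c ξ m‖ ^ 2 + 2 * (e1 * (1 / 2) ^ m) ^ 2 else 0) +
        (if m ∈ A ∧ n < m then ‖w m (x ξ n)‖ ^ 2 else 0) := by
      intro m _
      by_cases hmA : m ∈ A
      · rcases lt_trichotomy m n with hmn | hmn | hmn
        · rw [if_pos ⟨hmA, hmn.ne⟩, if_pos ⟨hmA, hmn⟩, if_neg (fun h => by omega), add_zero]
          have h3 := (hDd m hmA.1 n hnA.1 hmn).1 ξ hξ
          have h4 : ‖w m (x ξ n)‖ ≤ ‖w m (x ξ n) - c ξ m‖ + ‖c ξ m‖ := by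
            calc ‖w m (x ξ n)‖ = ‖(w m (x ξ n) - c ξ m) + c ξ m‖ := by rw [sub_add_cancel]
              _ ≤ _ := norm_add_le _ _
          have h5 : ‖w m (x ξ n)‖ ≤ e1 * (1 / 2) ^ m + ‖c ξ m‖ := by linarith
          have h6 := norm_nonneg (w m (x ξ n))
          nlinarith [sq_nonneg (e1 * (1 / 2) ^ m - ‖c ξ m‖)]
        · subst hmn
          rw [if_neg (fun h => h.2 rfl), if_neg (fun h => lt_irrefl _ h.2),
            if_neg (fun h => lt_irrefl _ h.2), norm_zero]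
          norm_num
        · rw [if_pos ⟨hmA, hmn.ne'⟩, if_neg (fun h => by omega), if_pos ⟨hmA, hmn⟩, zero_add]
      · rw [if_neg (fun h => hmA h.1), if_neg (fun h => hmA h.1), if_neg (fun h => hmA h.1),
          norm_zero]
        norm_num
    refine (Finset.sum_le_sum h2).trans ?_
    rw [Finset.sum_add_distrib]
    have h7 : ∑ m ∈ G, (if m ∈ A ∧ m < n then 2 * ‖c ξ m‖ ^ 2 + 2 * (e1 * (1 / 2) ^ m) ^ 2 else 0)
        ≤ 6 * e1 ^ 2 := by
      rw [← Finset.sum_filter, Finset.sum_add_distrib, ← Finset.mul_sum, ← Finset.mul_sum]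
      have h8 := hM0 ξ hξ (G.filter fun m => m ∈ A ∧ m < n) (fun i hi =>
        ((Finset.mem_filter.1 hi).2.1).2)
      have h9 : ∑ m ∈ G.filter (fun m => m ∈ A ∧ m < n), (e1 * (1 / 2) ^ m) ^ 2 ≤ 2 * e1 ^ 2 := by
        have h10 := sum_quarter_le (G.filter fun m => m ∈ A ∧ m < n)
        calc ∑ m ∈ G.filter (fun m => m ∈ A ∧ m < n), (e1 * (1 / 2) ^ m) ^ 2
            = e1 ^ 2 * ∑ m ∈ G.filter (fun m => m ∈ A ∧ m < n), ((1 / 2 : ℝ) ^ m) ^ 2 := by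
              rw [Finset.mul_sum]
              exact Finset.sum_congr rfl fun m _ => by rw [mul_pow]
          _ ≤ e1 ^ 2 * 2 := mul_le_mul_of_nonneg_left h10 (by positivity)
          _ = 2 * e1 ^ 2 := by ring
      linarith
    have h8 : ∑ m ∈ G, (if m ∈ A ∧ n < m then ‖w m (x ξ n)‖ ^ 2 else 0) ≤ e1 ^ 2 := by
      rw [← Finset.sum_filter]
      apply hg n ξ hξ
      intro i hi
      have h9 := (Finset.mem_filter.1 hi).2
      exact (hDd n hnA.1 i h9.1.1 h9.2).2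
    calc _ ≤ 6 * e1 ^ 2 + e1 ^ 2 := add_le_add h7 h8
      _ ≤ (3 * e1) ^ 2 := by nlinarith [sq_nonneg e1]
  -- pass to the limit
  have h1 : upOp U T ξ - φ ξ • cls U v =
      cls U (T.compLeftContinuousBounded ℕ (x ξ) - φ ξ • v) := by
    conv_lhs => rw [← hx ξ, upOp_cls, hx ξ]
    rfl
  rw [h1]
  have h2 := tendsto_norm_cls (𝕜 := 𝕜) U (T.compLeftContinuousBounded ℕ (x ξ) - φ ξ • v)
  have h3 : Tendsto (fun n => e + ‖w n (x ξ n) - φ ξ‖ * ‖v‖) (U : Filter ℕ)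
      (𝓝 (e + 0 * ‖v‖)) := by
    have h4 := hφ (x ξ)
    rw [hx ξ] at h4
    exact tendsto_const_nhds.add ((tendsto_iff_norm_sub_tendsto_zero.1 h4).mul_const _)
  rw [zero_mul, add_zero] at h3
  refine le_of_tendsto_of_tendsto h2 h3 ?_
  filter_upwards [hAU] with n hnA
  have h5 := hmain n hnA
  have h6 : (T.compLeftContinuousBounded ℕ (x ξ) - φ ξ • v) n =
      (T (x ξ n) - w n (x ξ n) • v n) + (w n (x ξ n) - φ ξ) • v n := by
    rw [sub_smul]
    simp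
  rw [h6]
  refine (norm_add_le _ _).trans (add_le_add h5 ?_)
  rw [norm_smul]
  exact mul_le_mul_of_nonneg_left (v.norm_coe_le_norm n) (norm_nonneg _)

end Pool.Agent.K1H32.WU
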