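import Mathlib

/-! Ultrapowers of normed spaces, ultrapower operators, WOT closures, selective ultrafilters. -/

set_option autoImplicit false

open Filter Topology

namespace Pool.Agent.K1H32.WU

section defs

variable (𝕜 : Type*) [RCLike 𝕜] (E : Type*) [NormedAddCommGroup E] [NormedSpace 𝕜 E]

/-- The bounded sequences whose norms tend to zero along the ultrafilter. -/
def nullSub (U : Ultrafilter ℕ) : Submodule 𝕜 (BoundedContinuousFunction ℕ E) where
  carrier := {x | Tendsto (fun n => ‖x n‖) (U : Filter ℕ) (𝓝 0)}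
  zero_mem' := by simp
  add_mem' := by
    intro x y hx hy
    have h := hx.add hy
    rw [add_zero] at h
    exact squeeze_zero (fun n => norm_nonneg _) (fun n => norm_add_le (x n) (y n)) h
  smul_mem' := by
    intro c x hx
    have h := hx.const_mul ‖c‖
    rw [mul_zero] at h
    refine h.congr fun n => ?_
    rw [BoundedContinuousFunction.coe_smul, norm_smul]

variable {E} in
lemma mem_nullSub {U : Ultrafilter ℕ} {x : BoundedContinuousFunction ℕ E} :
    x ∈ nullSub 𝕜 E U ↔ Tendsto (fun n => ‖x n‖) (U : Filter ℕ) (𝓝 0) := Iff.rfl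

instance isClosed_nullSub (U : Ultrafilter ℕ) :
    IsClosed ((nullSub 𝕜 E U : Submodule 𝕜 (BoundedContinuousFunction ℕ E)) :
      Set (BoundedContinuousFunction ℕ E)) := by
  rw [← isSeqClosed_iff_isClosed]
  intro x y hx hxy
  change Tendsto (fun n => ‖y n‖) (U : Filter ℕ) (𝓝 0)
  rw [Metric.tendsto_nhds]
  intro e he
  obtain ⟨k, hk⟩ := (Metric.tendsto_atTop.1 hxy (e / 2) (by linarith))
  have h1 := hk k le_rfl
  have h2 := (Metric.tendsto_nhds.1 (hx k : Tendsto (fun n => ‖x k n‖) (U : Filter ℕ) (𝓝 0)))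
    (e / 2) (by linarith)
  filter_upwards [h2] with n hn
  rw [Real.dist_eq, sub_zero, abs_norm] at hn ⊢
  have h3 : ‖y n - x k n‖ ≤ dist (x k) y := by
    rw [← dist_eq_norm, dist_comm]
    exact BoundedContinuousFunction.dist_coe_le_dist n
  calc ‖y n‖ = ‖(y n - x k n) + x k n‖ := by rw [sub_add_cancel]
    _ ≤ ‖y n - x k n‖ + ‖x k n‖ := norm_add_le _ _
    _ < e := by linarith

/-- The ultrapower of `E`: bounded sequences modulo null sequences along `U`, with the quotient
norm. -/
abbrev Ultrapower (U : Ultrafilter ℕ) : Type _ := BoundedContinuousFunction ℕ E ⧸ nullSub 𝕜 E U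

end defs

section ops

variable {𝕜 : Type*} [RCLike 𝕜] {E : Type*} [NormedAddCommGroup E] [NormedSpace 𝕜 E]

/-- The class of a bounded sequence. -/
noncomputable abbrev cls (U : Ultrafilter ℕ) (x : BoundedContinuousFunction ℕ E) : Ultrapower 𝕜 E U :=
  Submodule.Quotient.mk x

/-- bounded functions into a proper space converge along an ultrafilter -/
lemma exists_lim {G : Type*} [PseudoMetricSpace G] [ProperSpace G] (U : Ultrafilter ℕ)
    (f : ℕ → G) (c : G) (R : ℝ) (h : ∀ n, dist (f n) c ≤ R) :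
    ∃ l, Tendsto f (U : Filter ℕ) (𝓝 l) := by
  have hK : IsCompact (Metric.closedBall c R) := isCompact_closedBall c R
  have h1 : ((U.map f : Ultrafilter G) : Filter G) ≤ 𝓟 (Metric.closedBall c R) := by
    rw [le_principal_iff, Ultrafilter.coe_map, mem_map]
    exact Filter.univ_mem' h
  obtain ⟨l, _, hl⟩ := hK.ultrafilter_le_nhds (U.map f) h1
  exact ⟨l, hl⟩

/-- The norm of the ultrapower is the limit of the norms along the ultrafilter. -/
theorem tendsto_norm_cls (U : Ultrafilter ℕ) (x : BoundedContinuousFunction ℕ E) :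
    Tendsto (fun n => ‖x n‖) (U : Filter ℕ) (𝓝 ‖(cls U x : Ultrapower 𝕜 E U)‖) := by
  obtain ⟨l, hl⟩ := exists_lim U (fun n => ‖x n‖) 0 ‖x‖ (fun n => by
    rw [Real.dist_eq, sub_zero, abs_norm]; exact x.norm_coe_le_norm n)
  have hl0 : 0 ≤ l := ge_of_tendsto' hl fun n => norm_nonneg _
  suffices h : ‖(cls U x : Ultrapower 𝕜 E U)‖ = l by rw [h]; exact hl
  apply le_antisymm
  · apply le_of_forall_pos_le_add
    intro e he
    have hA := (Metric.tendsto_nhds.1 hl) e he
    classical
    let A : Set ℕ := {n | dist ‖x n‖ l < e}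
    let y : BoundedContinuousFunction ℕ E := BoundedContinuousFunction.ofNormedAddCommGroupDiscrete
      (fun n => if n ∈ A then 0 else - x n) ‖x‖ (fun n => by
        split_ifs
        · rw [norm_zero]; exact norm_nonneg _
        · rw [norm_neg]; exact x.norm_coe_le_norm n)
    have hy : y ∈ nullSub 𝕜 E U := by
      rw [mem_nullSub]
      refine tendsto_const_nhds.congr' ?_
      filter_upwards [hA] with n hn
      have : y n = 0 := if_pos hn
      rw [this, norm_zero]
    have h1 : (cls U x : Ultrapower 𝕜 E U) = cls U (x + y) := by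
      rw [Submodule.Quotient.eq]
      have : x - (x + y) = -y := by abel
      rw [this]
      exact neg_mem hy
    rw [h1]
    refine (Submodule.Quotient.norm_mk_le _ (x + y)).trans ?_
    rw [BoundedContinuousFunction.norm_le (by linarith)]
    intro n
    by_cases hn : n ∈ A
    · have : y n = 0 := if_pos hn
      rw [BoundedContinuousFunction.coe_add, Pi.add_apply, this, add_zero]
      have h2 : dist ‖x n‖ l < e := hn
      rw [Real.dist_eq] at h2
      linarith [(abs_lt.1 h2).2]
    · have : y n = - x n := if_neg hn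
      rw [BoundedContinuousFunction.coe_add, Pi.add_apply, this, add_neg_cancel, norm_zero]
      linarith
  · apply le_of_forall_pos_le_add
    intro e he
    obtain ⟨m, hm, hm2⟩ := Submodule.Quotient.norm_mk_lt (cls U x : Ultrapower 𝕜 E U) he
    have hm3 : m - x ∈ nullSub 𝕜 E U := (Submodule.Quotient.eq _).1 hm
    have h1 : Tendsto (fun n => ‖x n‖ - ‖(m - x) n‖) (U : Filter ℕ) (𝓝 (l - 0)) :=
      hl.sub (mem_nullSub 𝕜 |>.1 hm3)
    have h2 : ∀ n, ‖x n‖ - ‖(m - x) n‖ ≤ ‖(cls U x : Ultrapower 𝕜 E U)‖ + e := by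
      intro n
      have h3 : ‖x n‖ ≤ ‖m n‖ + ‖(m - x) n‖ := by
        have : x n = m n - (m - x) n := by simp
        calc ‖x n‖ = ‖m n - (m - x) n‖ := by rw [← this]
          _ ≤ _ := norm_sub_le _ _
      have h4 := m.norm_coe_le_norm n
      linarith
    have h5 := le_of_tendsto' h1 h2
    linarith

/-- An operator acting on bounded sequences respects null sequences. -/
lemma map_nullSub (U : Ultrafilter ℕ) (T : E →L[𝕜] E) :
    nullSub 𝕜 E U ≤ (nullSub 𝕜 E U).comap
      ((T.compLeftContinuousBounded ℕ : BoundedContinuousFunction ℕ E →L[𝕜] _) :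
        BoundedContinuousFunction ℕ E →ₗ[𝕜] BoundedContinuousFunction ℕ E) := by
  intro x hx
  rw [Submodule.mem_comap, mem_nullSub]
  have h := ((mem_nullSub 𝕜).1 hx).const_mul ‖T‖
  rw [mul_zero] at h
  exact squeeze_zero (fun n => norm_nonneg _) (fun n => T.le_opNorm (x n)) h

/-- The ultrapower operator `T^U`, sending the class of `(x n)` to the class of `(T (x n))`. -/
noncomputable def upOp (U : Ultrafilter ℕ) (T : E →L[𝕜] E) :
    Ultrapower 𝕜 E U →L[𝕜] Ultrapower 𝕜 E U :=
  LinearMap.mkContinuous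
    (Submodule.mapQ (nullSub 𝕜 E U) (nullSub 𝕜 E U)
      ((T.compLeftContinuousBounded ℕ : BoundedContinuousFunction ℕ E →L[𝕜] _) :
        BoundedContinuousFunction ℕ E →ₗ[𝕜] BoundedContinuousFunction ℕ E) (map_nullSub U T))
    ‖T‖ (by
      intro ξ
      induction ξ using Submodule.Quotient.induction_on with
      | H x =>
        rw [Submodule.mapQ_apply]
        have h1 := tendsto_norm_cls (𝕜 := 𝕜) U x
        have h2 := tendsto_norm_cls (𝕜 := 𝕜) U (T.compLeftContinuousBounded ℕ x)
        exact le_of_tendsto_of_tendsto' h2 (h1.const_mul ‖T‖) fun n => T.le_opNorm (x n))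

@[simp] lemma upOp_cls (U : Ultrafilter ℕ) (T : E →L[𝕜] E) (x : BoundedContinuousFunction ℕ E) :
    upOp U T (cls U x) = cls U (T.compLeftContinuousBounded ℕ x) := rfl

end ops

/-- `U` is non-principal: no singleton belongs to it. -/
def Nonprincipal (U : Ultrafilter ℕ) : Prop := ∀ n : ℕ, ({n} : Set ℕ) ∉ U

/-- `U` is selective: for every partition of `ℕ` (given by an equivalence relation) none of whose
classes belongs to `U`, some set of `U` meets every class in at most one point. -/
def Selective (U : Ultrafilter ℕ) : Prop :=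
  ∀ s : Setoid ℕ, (∀ m : ℕ, {n | s n m} ∉ U) → ∃ A ∈ U, ∀ m ∈ A, ∀ n ∈ A, s m n → m = n

section closures

variable (𝕜 : Type*) [RCLike 𝕜] (E : Type*) [NormedAddCommGroup E] [NormedSpace 𝕜 E]

/-- The closure, in the weak operator topology of `B(E^U)`, of the set of all ultrapower
operators. -/
def opClosure (U : Ultrafilter ℕ) : Set (Ultrapower 𝕜 E U →L[𝕜] Ultrapower 𝕜 E U) :=
  {S | ContinuousLinearMapWOT.ofCLM S ∈
    closure {R : Ultrapower 𝕜 E U →WOT[𝕜] Ultrapower 𝕜 E U |
      ∃ T : E →L[𝕜] E, R = ContinuousLinearMapWOT.ofCLM (upOp U T)}}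

/-- The closure, in the weak operator topology of `B(E^U)`, of the set of the ultrapower
operators `T^U` with `‖T‖ ≤ r`. -/
def opClosureBdd (U : Ultrafilter ℕ) (r : ℝ) :
    Set (Ultrapower 𝕜 E U →L[𝕜] Ultrapower 𝕜 E U) :=
  {S | ContinuousLinearMapWOT.ofCLM S ∈
    closure {R : Ultrapower 𝕜 E U →WOT[𝕜] Ultrapower 𝕜 E U |
      ∃ T : E →L[𝕜] E, ‖T‖ ≤ r ∧ R = ContinuousLinearMapWOT.ofCLM (upOp U T)}}

end closures

end Pool.Agent.K1H32.WU
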